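import Pool.Agent.Q61.CS.CaseD3

set_option autoImplicit false

namespace Pool.Agent.Q61.CS

open Polynomial

variable {K : Type*} [Field K] [Finite K]

lemma RC_d_core (k : Co K) (h2 : k.q2 = 0) (h3 : k.q3 = 0) (h4 : k.q4 = 0) (h5 : k.q5 = 0)
    (h6 : k.q6 = 0) (hC : ∀ s t : K, dM k s t = 0 → s = 0 ∧ t = 0)
    (hDv : ∀ u1 u2 : K, dD (k.trans u1 u2) ≠ 0)
    (hQ : ¬ (k.c2 ^ 2 + dD k * k.c4 = 0 ∧ 2 * k.c2 * k.c3 + dD k * k.c5 = 0 ∧
      k.c3 ^ 2 + dD k * k.c6 = 0)) : RC K k := by
  obtain ⟨l, hl⟩ := exists_root_quad K 1 k.q1 k.c1 one_ne_zero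
  rw [map_one, one_mul] at hl
  obtain ⟨σ, hσ, hfix⟩ := exists_frob K
  have hD0 : dD k ≠ 0 := by
    have := hDv 0 0
    simpa [dD, Co.trans] using this
  by_cases hlK : σ l = l
  · obtain ⟨l, rfl⟩ := hfix l hlK
    have hl' : l ^ 2 + k.q1 * l + k.c1 = 0 := by
      apply (algebraMap K (AlgebraicClosure K)).injective
      simpa using hl
    refine RC_d2 k h2 h3 h4 h5 h6 hC l (-k.q1 - l) (by ring) (by linear_combination -hl') ?_ hQ
    intro h
    apply hD0
    unfold dD
    linear_combination (2 * l + k.q1) * h - 4 * hl'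
  · have hl2 : (σ l) ^ 2 + algebraMap K _ k.q1 * σ l + algebraMap K _ k.c1 = 0 := by
      have := congrArg σ hl
      simpa [hσ] using this
    have hsum : l + σ l = -algebraMap K _ k.q1 := by
      have : (l - σ l) * (l + σ l + algebraMap K _ k.q1) = 0 := by
        linear_combination hl - hl2
      have h' := (mul_eq_zero.mp this).resolve_left (fun h => hlK (sub_eq_zero.mp h).symm)
      linear_combination h'
    have hll : σ (σ l) = l := by
      have := congrArg σ hsum
      rw [map_add, map_neg, hσ] at this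
      linear_combination this - hsum
    obtain ⟨p1, p2, hp⟩ : ∃ p1 p2 : K, dQ k (dD k) p1 p2 ≠ 0 := by
      by_contra hcon
      push Not at hcon
      apply hQ
      have a := hcon 1 0
      have b := hcon 0 1
      have c := hcon 1 1
      unfold dQ at a b c
      refine ⟨?_, ?_, ?_⟩
      · linear_combination a
      · linear_combination c - a - b
      · linear_combination b
    exact RC_d3 k h2 h3 h4 h5 h6 hC σ hσ hfix l hl hlK hll hsum hDv p1 p2 hp

/-- A double root when the discriminant vanishes. -/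
lemma exists_double (a b : K) (h : a ^ 2 - 4 * b = 0) :
    ∃ l : K, l ^ 2 + a * l + b = 0 ∧ 2 * l + a = 0 := by
  by_cases h2 : (2 : K) = 0
  · have ha : a = 0 := by
      apply (pow_eq_zero_iff two_ne_zero).mp
      linear_combination h + 2 * b * h2
    obtain ⟨l, hl⟩ := exists_sq K h2 (-b)
    refine ⟨l, ?_, ?_⟩
    · rw [ha, hl]; ring
    · rw [ha]; linear_combination l * h2
  · refine ⟨-a / 2, ?_, ?_⟩
    · field_simp
      linear_combination -h
    · field_simp
      ring

lemma RC_d' (k : Co K) (h2 : k.q2 = 0) (h3 : k.q3 = 0) (h4 : k.q4 = 0) (h5 : k.q5 = 0)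
    (h6 : k.q6 = 0) (hC : ∀ s t : K, dM k s t = 0 → s = 0 ∧ t = 0) : RC K k := by
  by_cases hDv : ∀ u1 u2 : K, dD (k.trans u1 u2) ≠ 0
  · obtain ⟨u1, u2, hu⟩ := key_d k h2 h3 h4 h5 h6 hC hDv
    refine RC_of_trans k u1 u2 (RC_d_core _ ?_ ?_ h4 h5 h6 hC ?_ hu)
    · show k.q2 + 2 * k.q4 * u1 + k.q5 * u2 = 0
      rw [h2, h4, h5]; ring
    · show k.q3 + k.q5 * u1 + 2 * k.q6 * u2 = 0
      rw [h3, h5, h6]; ring
    · intro a b
      have := hDv (u1 + a) (u2 + b)
      intro h
      apply this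
      rw [← h]
      simp only [dD, Co.trans]
      ring
  · push Not at hDv
    obtain ⟨u1, u2, hu⟩ := hDv
    obtain ⟨l, hl1, hl2⟩ := exists_double _ _ hu
    exact RC_of_trans k u1 u2 (RC_branch _ l hl1 hl2)

/-- Every smooth rational point of a cubic surface in normal form lies on a rational curve. -/
theorem RC_all (k : Co K) : RC K k := by
  by_cases hN : k.q4 = 0 ∧ k.q5 = 0 ∧ k.q6 = 0
  · obtain ⟨h4, h5, h6⟩ := hN
    by_cases hC : ∀ s t : K, dM k s t = 0 → s = 0 ∧ t = 0
    · by_cases h2 : (2 : K) = 0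
      · by_cases hq : k.q2 = 0 ∧ k.q3 = 0
        · exact RC_d' k hq.1 hq.2 h4 h5 h6 hC
        · obtain ⟨u1, u2, hu⟩ : ∃ u1 u2 : K, k.q1 + k.q2 * u1 + k.q3 * u2 = 0 := by
            by_cases h : k.q2 = 0
            · have h3 : k.q3 ≠ 0 := fun h' => hq ⟨h, h'⟩
              refine ⟨0, -k.q1 / k.q3, ?_⟩
              field_simp
              ring
            · refine ⟨-k.q1 / k.q2, 0, ?_⟩
              field_simp
              ring
          obtain ⟨l, hl⟩ := exists_sq K h2 (-(k.trans u1 u2).c1)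
          have hq1 : (k.trans u1 u2).q1 = 0 := by
            show k.q1 + k.q2 * u1 + k.q3 * u2 + k.q4 * u1 ^ 2 + k.q5 * u1 * u2
              + k.q6 * u2 ^ 2 = 0
            rw [h4, h5, h6]
            linear_combination hu
          refine RC_of_trans k u1 u2 (RC_branch _ l ?_ ?_)
          · rw [hq1, hl]; ring
          · rw [hq1]; linear_combination l * h2
      · refine RC_of_shiftW k (-k.q2 / 2) (-k.q3 / 2) (RC_d' _ ?_ ?_ h4 h5 h6 ?_)
        · show k.q2 + 2 * (-k.q2 / 2) = 0
          field_simp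
          ring
        · show k.q3 + 2 * (-k.q3 / 2) = 0
          field_simp
          ring
        · intro s t h
          apply hC s t
          rw [← h]
          simp only [dM, Co.shiftW, h4, h5, h6]
          ring
    · push Not at hC
      obtain ⟨s, t, h, hst⟩ := hC
      refine RC_line k s t (fun h' => hst h'.1 h'.2) ?_ h
      rw [h4, h5, h6]
      ring
  · exact RC_N k hN

end Pool.Agent.Q61.CS
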