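import Pool.Agent.Q61.CS.Core

set_option autoImplicit false

namespace Pool.Agent.Q61.CS

open Polynomial

variable {K : Type*} [Field K]

lemma simpNF {A : Type*} [CommRing A] (k : Co A) (x y z w : A) : NF k x y z w =
  x * w ^ 2 + w * (k.q1 * x ^ 2 + k.q2 * x * y + k.q3 * x * z + k.q4 * y ^ 2 + k.q5 * y * z
    + k.q6 * z ^ 2)
  + (k.c1 * x ^ 3 + k.c2 * x ^ 2 * y + k.c3 * x ^ 2 * z + k.c4 * x * y ^ 2 + k.c5 * x * y * z
    + k.c6 * x * z ^ 2 + k.c7 * y ^ 3 + k.c8 * y ^ 2 * z + k.c9 * y * z ^ 2 + k.c10 * z ^ 3) := rfl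

/-- A line through the point. -/
lemma RC_line (k : Co K) (y z : K) (hyz : ¬ (y = 0 ∧ z = 0))
    (hN : k.q4 * y ^ 2 + k.q5 * y * z + k.q6 * z ^ 2 = 0)
    (hC : k.c7 * y ^ 3 + k.c8 * y ^ 2 * z + k.c9 * y * z ^ 2 + k.c10 * z ^ 3 = 0) : RC K k := by
  refine ⟨0, C y * X, C z * X, 1, ?_, ⟨0, by simp, by simp, by simp, by simp⟩, ?_, by simp, ?_, ?_,
    by simp⟩
  · have hN' := congrArg (C : K → K[X]) hN
    have hC' := congrArg (C : K → K[X]) hC
    simp only [map_add, map_mul, map_pow, map_zero] at hN' hC'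
    simp only [NF, Co.map]
    linear_combination X ^ 2 * hN' + X ^ 3 * hC'
  · rintro ⟨-, h1, h2⟩
    apply hyz
    constructor
    · have := congrArg (fun p => coeff p 1) h1
      simpa using this
    · have := congrArg (fun p => coeff p 1) h2
      simpa using this
  · compute_degree
    norm_num
  · compute_degree
    norm_num

/-- The tangent plane section at the point, parametrised by `(s : t) = (T : 1)`. -/
lemma RC_tangent1 (k : Co K) (ρ : AlgebraicClosure K)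
    (hN : algebraMap K _ k.q4 * ρ ^ 2 + algebraMap K _ k.q5 * ρ + algebraMap K _ k.q6 = 0)
    (hC : algebraMap K _ k.c7 * ρ ^ 3 + algebraMap K _ k.c8 * ρ ^ 2 + algebraMap K _ k.c9 * ρ
      + algebraMap K _ k.c10 ≠ 0) (hne : ¬ (k.q4 = 0 ∧ k.q5 = 0 ∧ k.q6 = 0)) : RC K k := by
  set N : K[X] := C k.q4 * X ^ 2 + C k.q5 * X + C k.q6 with hNdef
  set M : K[X] := C k.c7 * X ^ 3 + C k.c8 * X ^ 2 + C k.c9 * X + C k.c10 with hMdef
  have e1 : aeval ρ N = 0 := by
    simp only [hNdef, map_add, map_mul, map_pow, aeval_C, aeval_X]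
    exact hN
  have e2 : aeval ρ M ≠ 0 := by
    simp only [hMdef, map_add, map_mul, map_pow, aeval_C, aeval_X]
    exact hC
  have dN : N.natDegree ≤ 2 := natDegree_quadratic_le
  have dM : M.natDegree ≤ 3 := natDegree_cubic_le
  refine ⟨0, X * N, N, -M, ?_, ⟨ρ, by simp, by simp [e1], by simp [e1], by simpa using e2⟩, ?_,
    by simp, ?_, ?_, ?_⟩
  · simp only [NF, Co.map]
    rw [hNdef, hMdef]
    ring
  · rintro ⟨-, -, h⟩
    apply hne
    refine ⟨?_, ?_, ?_⟩
    · have := congrArg (fun p => coeff p 2) h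
      simpa [hNdef, coeff_X, coeff_C] using this
    · have := congrArg (fun p => coeff p 1) h
      simpa [hNdef, coeff_X, coeff_C, coeff_X_pow] using this
    · have := congrArg (fun p => coeff p 0) h
      simpa [hNdef, coeff_X, coeff_C] using this
  · exact (natDegree_mul_le.trans (by simp; omega))
  · omega
  · rw [natDegree_neg]; omega

/-- The tangent plane section at the point, when `(1 : 0)` is a root. -/
lemma RC_tangent2 (k : Co K) (hN : k.q4 = 0) (hC : k.c7 ≠ 0)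
    (hne : ¬ (k.q5 = 0 ∧ k.q6 = 0)) : RC K k := by
  set N : K[X] := C k.q5 * X + C k.q6 * X ^ 2 with hNdef
  set M : K[X] := C k.c7 + C k.c8 * X + C k.c9 * X ^ 2 + C k.c10 * X ^ 3 with hMdef
  refine ⟨0, N, X * N, -M, ?_, ⟨0, by simp, by simp [hNdef], by simp, ?_⟩, ?_,
    by simp, ?_, ?_, ?_⟩
  · simp only [NF, Co.map, hN]
    rw [hNdef, hMdef]
    simp only [map_zero]
    ring
  · simp [hMdef, hC]
  · rintro ⟨-, h, -⟩
    apply hne
    refine ⟨?_, ?_⟩
    · have := congrArg (fun p => coeff p 1) h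
      simpa [hNdef, coeff_X, coeff_C, coeff_X_pow] using this
    · have := congrArg (fun p => coeff p 2) h
      simpa [hNdef, coeff_X, coeff_C] using this
  · rw [hNdef]
    compute_degree
    norm_num
  · rw [hNdef]
    compute_degree
    norm_num
  · rw [hMdef, natDegree_neg]
    compute_degree
    norm_num

/-- Tangent plane through the point: the vertical line through `o = (1 : 0 : 0 : l)` is tangent
at `o`. -/
lemma RC_branch (k : Co K) (l : K) (h1 : l ^ 2 + k.q1 * l + k.c1 = 0) (h2 : 2 * l + k.q1 = 0) :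
    RC K k := by
  -- a direction `(d1, d2)` tangent to the surface at `o`
  obtain ⟨d1, d2, hd, hd0⟩ : ∃ d1 d2 : K,
      (l * k.q2 + k.c2) * d1 + (l * k.q3 + k.c3) * d2 = 0 ∧ ¬ (d1 = 0 ∧ d2 = 0) := by
    by_cases h : l * k.q2 + k.c2 = 0 ∧ l * k.q3 + k.c3 = 0
    · exact ⟨1, 0, by rw [h.1, h.2]; ring, by simp⟩
    · refine ⟨l * k.q3 + k.c3, -(l * k.q2 + k.c2), by ring, ?_⟩
      rintro ⟨h3, h4⟩
      exact h ⟨neg_eq_zero.mp h4, h3⟩
  set Q : K := k.q2 * d1 + k.q3 * d2 with hQ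
  set N : K := k.q4 * d1 ^ 2 + k.q5 * d1 * d2 + k.q6 * d2 ^ 2 with hN
  set R : K := k.c4 * d1 ^ 2 + k.c5 * d1 * d2 + k.c6 * d2 ^ 2 with hR
  set S : K := k.c7 * d1 ^ 3 + k.c8 * d1 ^ 2 * d2 + k.c9 * d1 * d2 ^ 2 + k.c10 * d2 ^ 3 with hS
  set k2 : K[X] := 1 + C Q * X + C (l * N + R) * X ^ 2 with hk2
  set k3 : K[X] := C N * X ^ 2 + C S * X ^ 3 with hk3
  refine ⟨k3, -(k2 * X * C d1), -(k2 * X * C d2), k3 * C l - k2, ?_, ⟨0, by simp [hk3],
    by simp, by simp, by simp [hk3, hk2]⟩, ?_, ?_, ?_, ?_, ?_⟩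
  · have h1' := congrArg (C : K → K[X]) h1
    have h2' := congrArg (C : K → K[X]) h2
    have hd' := congrArg (C : K → K[X]) hd
    have hQ' := congrArg (C : K → K[X]) hQ
    have hN' := congrArg (C : K → K[X]) hN
    have hR' := congrArg (C : K → K[X]) hR
    have hS' := congrArg (C : K → K[X]) hS
    simp only [map_add, map_mul, map_pow, map_zero, map_ofNat] at h1' h2' hd' hQ' hN' hR' hS' hk2
    simp only [NF, Co.map]
    have hk2' := hk2
    have hk3' := hk3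
    have key : k2 * k3 * k2 * k2 - k2 ^ 3 * k3 = 0 := by ring
    have hk2e : k2 = 1 + X * (C k.q2 * C d1 + C k.q3 * C d2) + X ^ 2 *
        (C l * (C k.q4 * C d1 ^ 2 + C k.q5 * C d1 * C d2 + C k.q6 * C d2 ^ 2)
          + (C k.c4 * C d1 ^ 2 + C k.c5 * C d1 * C d2 + C k.c6 * C d2 ^ 2)) := by
      rw [hk2, hQ', hN', hR']; ring
    have hk3e : k3 = X ^ 2 * (C k.q4 * C d1 ^ 2 + C k.q5 * C d1 * C d2 + C k.q6 * C d2 ^ 2)
        + X ^ 3 * (C k.c7 * C d1 ^ 3 + C k.c8 * C d1 ^ 2 * C d2 + C k.c9 * C d1 * C d2 ^ 2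
          + C k.c10 * C d2 ^ 3) := by
      rw [hk3, hN', hS']; ring
    generalize k2 = u at *
    generalize k3 = v at *
    -- the cubic restricted to the tangent plane
    have main : v * (v * C l - u) ^ 2 + (v * C l - u) * (C k.q1 * v ^ 2
        + C k.q2 * v * -(u * X * C d1) + C k.q3 * v * -(u * X * C d2)
        + C k.q4 * (-(u * X * C d1)) ^ 2 + C k.q5 * -(u * X * C d1) * -(u * X * C d2)
        + C k.q6 * (-(u * X * C d2)) ^ 2) + (C k.c1 * v ^ 3 + C k.c2 * v ^ 2 * -(u * X * C d1)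
        + C k.c3 * v ^ 2 * -(u * X * C d2) + C k.c4 * v * (-(u * X * C d1)) ^ 2
        + C k.c5 * v * -(u * X * C d1) * -(u * X * C d2) + C k.c6 * v * (-(u * X * C d2)) ^ 2
        + C k.c7 * (-(u * X * C d1)) ^ 3 + C k.c8 * (-(u * X * C d1)) ^ 2 * -(u * X * C d2)
        + C k.c9 * -(u * X * C d1) * (-(u * X * C d2)) ^ 2
        + C k.c10 * (-(u * X * C d2)) ^ 3)
        = v ^ 3 * (C l ^ 2 + C k.q1 * C l + C k.c1) - v ^ 2 * u * (2 * C l + C k.q1)
          - v ^ 2 * u * X * ((C l * C k.q2 + C k.c2) * C d1 + (C l * C k.q3 + C k.c3) * C d2)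
          + v * u ^ 2 * (1 + X * (C k.q2 * C d1 + C k.q3 * C d2) + X ^ 2 *
        (C l * (C k.q4 * C d1 ^ 2 + C k.q5 * C d1 * C d2 + C k.q6 * C d2 ^ 2)
          + (C k.c4 * C d1 ^ 2 + C k.c5 * C d1 * C d2 + C k.c6 * C d2 ^ 2)))
          - u ^ 3 * (X ^ 2 * (C k.q4 * C d1 ^ 2 + C k.q5 * C d1 * C d2 + C k.q6 * C d2 ^ 2)
        + X ^ 3 * (C k.c7 * C d1 ^ 3 + C k.c8 * C d1 ^ 2 * C d2 + C k.c9 * C d1 * C d2 ^ 2
          + C k.c10 * C d2 ^ 3)) := by ring
    rw [main, ← hk2e, ← hk3e, h1', h2', hd']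
    ring
  · rintro ⟨-, h4, h5⟩
    have hk0 : k2 ≠ 0 := by
      intro h
      have := congrArg (fun p => coeff p 0) h
      simp [hk2] at this
    apply hd0
    constructor
    · by_contra h
      have : k2 * X * C d1 ≠ 0 := mul_ne_zero (mul_ne_zero hk0 X_ne_zero) (by simpa using h)
      exact this (neg_eq_zero.mp h4)
    · by_contra h
      have : k2 * X * C d2 ≠ 0 := mul_ne_zero (mul_ne_zero hk0 X_ne_zero) (by simpa using h)
      exact this (neg_eq_zero.mp h5)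
  · rw [hk3]
    compute_degree
    norm_num
  · rw [hk2]
    compute_degree
    norm_num
  · rw [hk2]
    compute_degree
    norm_num
  · rw [hk3, hk2]
    compute_degree
    norm_num

end Pool.Agent.Q61.CS
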