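import Pool.Agent.Q61.CS.Join

set_option autoImplicit false

namespace Pool.Agent.Q61.CS

open Polynomial

variable {K : Type*} [Field K]

lemma NF_smul {A : Type*} [CommRing A] (k : Co A) (c x y z w : A) :
    NF k (c * x) (c * y) (c * z) (c * w) = c ^ 3 * NF k x y z w := by
  unfold NF
  ring

/-- A polynomial whose coefficients are fixed by `σ` comes from the fixed field. -/
lemma exists_map_eq {L : Type*} [Field L] [Algebra K L] (σ : L →+* L)
    (hfix : ∀ x, σ x = x → ∃ a : K, algebraMap K L a = x) (p : L[X]) (hp : p.map σ = p) :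
    ∃ p' : K[X], p'.map (algebraMap K L) = p := by
  have : p ∈ lifts (algebraMap K L) := by
    rw [lifts_iff_coeff_lifts]
    intro n
    have h := congrArg (fun f => f.coeff n) hp
    simp only [coeff_map] at h
    obtain ⟨a, ha⟩ := hfix _ h
    exact ⟨a, ha⟩
  obtain ⟨p', hp'⟩ := (mem_lifts p).mp this
  exact ⟨p', hp'⟩

/-- Descent: the third intersection point of the line through a curve and its conjugate. -/
lemma RC_descent (k : Co K) (σ : AlgebraicClosure K →+* AlgebraicClosure K)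
    (hσ : ∀ a : K, σ (algebraMap K _ a) = algebraMap K _ a)
    (hfix : ∀ x, σ x = x → ∃ a : K, algebraMap K (AlgebraicClosure K) a = x)
    (r0 r1 r2 r3 : (AlgebraicClosure K)[X])
    (hr : NF ((k.map (algebraMap K (AlgebraicClosure K))).map C) r0 r1 r2 r3 = 0)
    (d0 : r0.natDegree ≤ 3) (d1 : r1.natDegree ≤ 3) (d2 : r2.natDegree ≤ 3)
    (d3 : r3.natDegree ≤ 3)
    (i0 : (r0.map σ).map σ = r0) (i1 : (r1.map σ).map σ = r1) (i2 : (r2.map σ).map σ = r2)
    (i3 : (r3.map σ).map σ = r3)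
    (κ w : AlgebraicClosure K) (v1 v2 : K) (hκ : κ ≠ 0)
    (e0 : r0.eval 0 = κ) (e1 : r1.eval 0 = κ * algebraMap K _ v1)
    (e2 : r2.eval 0 = κ * algebraMap K _ v2) (e3 : r3.eval 0 = κ * w) (hw : σ w ≠ w)
    (hnc : r1.map σ * r0 ≠ r1 * r0.map σ ∨ r2.map σ * r0 ≠ r2 * r0.map σ) : RC K k := by
  set ι := algebraMap K (AlgebraicClosure K) with hι
  set kk := (k.map ι).map (C : AlgebraicClosure K →+* (AlgebraicClosure K)[X]) with hkk
  have hkkσ : kk.map (mapRingHom σ) = kk := by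
    rw [hkk, Co_map_map]
    have : (mapRingHom σ).comp (C.comp ι) = C.comp ι := by
      refine RingHom.ext fun a => ?_
      simp only [RingHom.comp_apply, coe_mapRingHom, map_C, hσ]
    rw [Co_map_map, Co_map_map]
    rw [show ((mapRingHom σ).comp C).comp ι = (mapRingHom σ).comp (C.comp ι) from rfl, this]
  have hkk0 : kk.map (evalRingHom (0 : AlgebraicClosure K)) = k.map ι := by
    rw [hkk, Co_map_map, Co_map_map]
    congr 1
    ext a
    simp
  set s0 := r0.map σ with hs0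
  set s1 := r1.map σ with hs1
  set s2 := r2.map σ with hs2
  set s3 := r3.map σ with hs3
  have hrs : NF kk s0 s1 s2 s3 = 0 := by
    have := NF_map (mapRingHom σ) kk r0 r1 r2 r3
    rw [hr, map_zero, hkkσ] at this
    simpa using this.symm
  set P := PF kk r0 r1 r2 r3 s0 s1 s2 s3 with hP
  set Q := PF kk s0 s1 s2 s3 r0 r1 r2 r3 with hQ
  have hPσ : P.map σ = Q := by
    have := PF_map (mapRingHom σ) kk r0 r1 r2 r3 s0 s1 s2 s3
    rw [hkkσ] at this
    simp only [coe_mapRingHom, ← hs0, ← hs1, ← hs2, ← hs3, i0, i1, i2, i3] at this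
    exact this
  have hQσ : Q.map σ = P := by
    have := PF_map (mapRingHom σ) kk s0 s1 s2 s3 r0 r1 r2 r3
    rw [hkkσ] at this
    simp only [coe_mapRingHom, ← hs0, ← hs1, ← hs2, ← hs3, i0, i1, i2, i3] at this
    exact this
  have h3 := NF_third kk r0 r1 r2 r3 s0 s1 s2 s3 hr hrs
  rw [← hP, ← hQ] at h3
  -- involution on `κ` and `w`
  have es0 : s0.eval 0 = σ κ := by
    rw [hs0, ← e0, eval_zero_map]
  have es1 : s1.eval 0 = σ κ * ι v1 := by
    rw [hs1, eval_zero_map, e1, map_mul, hσ]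
  have es2 : s2.eval 0 = σ κ * ι v2 := by
    rw [hs2, eval_zero_map, e2, map_mul, hσ]
  have es3 : s3.eval 0 = σ κ * σ w := by
    rw [hs3, eval_zero_map, e3, map_mul]
  have hκ' : σ κ ≠ 0 := by simpa using hκ
  have hκκ : σ (σ κ) = κ := by
    have := congrArg (fun f => f.eval 0) i0
    simp only [eval_zero_map, es0, e0] at this
    exact this
  have hww : σ (σ w) = w := by
    have := congrArg (fun f => f.eval 0) i3
    simp only [eval_zero_map, es3, e3, map_mul, hκκ] at this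
    exact mul_left_cancel₀ hκ this
  -- the two points over `(1 : v1 : v2)`
  have hNw : NF (k.map ι) 1 (ι v1) (ι v2) w = 0 := by
    have := NF_map (evalRingHom (0 : AlgebraicClosure K)) kk r0 r1 r2 r3
    rw [hr, map_zero, hkk0] at this
    simp only [coe_evalRingHom, e0, e1, e2, e3] at this
    have e := NF_smul (k.map ι) κ 1 (ι v1) (ι v2) w
    rw [mul_one] at e
    rw [e] at this
    exact (mul_eq_zero.mp this.symm).resolve_left (pow_ne_zero _ hκ)
  have hkσ : (k.map ι).map σ = k.map ι := by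
    rw [Co_map_map]
    congr 1
    refine RingHom.ext fun a => ?_
    simp only [RingHom.comp_apply, hσ]
  have hNw' : NF (k.map ι) 1 (ι v1) (ι v2) (σ w) = 0 := by
    have := NF_map σ (k.map ι) 1 (ι v1) (ι v2) w
    rw [hNw, hkσ, map_zero, map_one, hσ, hσ] at this
    exact this.symm
  have hsum : w + σ w = -((k.map ι).q1 + (k.map ι).q2 * ι v1 + (k.map ι).q3 * ι v2
      + (k.map ι).q4 * ι v1 ^ 2 + (k.map ι).q5 * ι v1 * ι v2 + (k.map ι).q6 * ι v2 ^ 2) := by
    have h : (w - σ w) * (w + σ w + ((k.map ι).q1 + (k.map ι).q2 * ι v1 + (k.map ι).q3 * ι v2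
      + (k.map ι).q4 * ι v1 ^ 2 + (k.map ι).q5 * ι v1 * ι v2 + (k.map ι).q6 * ι v2 ^ 2)) = 0 := by
      unfold NF at hNw hNw'
      linear_combination hNw - hNw'
    have h' := (mul_eq_zero.mp h).resolve_left (fun h => hw (sub_eq_zero.mp h).symm)
    linear_combination h'
  have hprod : w * σ w = (k.map ι).c1 + (k.map ι).c2 * ι v1 + (k.map ι).c3 * ι v2
      + (k.map ι).c4 * ι v1 ^ 2 + (k.map ι).c5 * ι v1 * ι v2 + (k.map ι).c6 * ι v2 ^ 2
      + (k.map ι).c7 * ι v1 ^ 3 + (k.map ι).c8 * ι v1 ^ 2 * ι v2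
      + (k.map ι).c9 * ι v1 * ι v2 ^ 2 + (k.map ι).c10 * ι v2 ^ 3 := by
    unfold NF at hNw
    linear_combination w * hsum - hNw
  have eP : P.eval 0 = -(κ ^ 2 * σ κ * (w - σ w) ^ 2) := by
    have := PF_map (evalRingHom (0 : AlgebraicClosure K)) kk r0 r1 r2 r3 s0 s1 s2 s3
    rw [hkk0, ← hP] at this
    simp only [coe_evalRingHom, e0, e1, e2, e3, es0, es1, es2, es3] at this
    have e := PF_smul_left (k.map ι) κ 1 (ι v1) (ι v2) w (σ κ * 1) (σ κ * ι v1) (σ κ * ι v2)
      (σ κ * σ w)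
    have e' := PF_smul_right (k.map ι) (σ κ) 1 (ι v1) (ι v2) w 1 (ι v1) (ι v2) (σ w)
    rw [PF_vert (k.map ι) (ι v1) (ι v2) w (σ w) hsum hprod] at e'
    rw [e', mul_one, mul_one] at e
    rw [this, e]
    ring
  have eQ : Q.eval 0 = -(κ * σ κ ^ 2 * (w - σ w) ^ 2) := by
    have := PF_map (evalRingHom (0 : AlgebraicClosure K)) kk s0 s1 s2 s3 r0 r1 r2 r3
    rw [hkk0, ← hQ] at this
    simp only [coe_evalRingHom, e0, e1, e2, e3, es0, es1, es2, es3] at this
    have e := PF_smul_left (k.map ι) (σ κ) 1 (ι v1) (ι v2) (σ w) (κ * 1) (κ * ι v1) (κ * ι v2)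
      (κ * w)
    have e' := PF_smul_right (k.map ι) κ 1 (ι v1) (ι v2) (σ w) 1 (ι v1) (ι v2) w
    rw [PF_vert (k.map ι) (ι v1) (ι v2) (σ w) w (by rw [add_comm]; exact hsum)
      (by rw [mul_comm]; exact hprod)] at e'
    rw [e', mul_one, mul_one] at e
    rw [this, e]
    ring
  have hθ : w - σ w ≠ 0 := fun h => hw (sub_eq_zero.mp h).symm
  have hP0 : P ≠ 0 := by
    intro h
    rw [h, eval_zero] at eP
    have : κ ^ 2 * σ κ * (w - σ w) ^ 2 = 0 := by linear_combination eP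
    exact mul_ne_zero (mul_ne_zero (pow_ne_zero _ hκ) hκ') (pow_ne_zero _ hθ) this
  -- the descended curve
  have hdesc : ∀ r s : (AlgebraicClosure K)[X], s = r.map σ → s.map σ = r →
      ∃ u : K[X], u.map ι = C (w - σ w) * (P * s - Q * r) := by
    intro r s h1 h2
    apply exists_map_eq σ hfix
    simp only [Polynomial.map_mul, Polynomial.map_sub, map_C, hPσ, hQσ, h2, ← h1, map_sub, hww]
    ring
  obtain ⟨u0, hu0⟩ := hdesc r0 s0 hs0 i0
  obtain ⟨u1, hu1⟩ := hdesc r1 s1 hs1 i1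
  obtain ⟨u2, hu2⟩ := hdesc r2 s2 hs2 i2
  obtain ⟨u3, hu3⟩ := hdesc r3 s3 hs3 i3
  have dmap : ∀ u : K[X], u.natDegree = (u.map ι).natDegree := fun u => by
    rw [natDegree_map]
  have dP : P.natDegree ≤ 9 := nd_PF (k.map ι) d0 d1 d2 d3 (natDegree_map_le.trans d0)
    (natDegree_map_le.trans d1) (natDegree_map_le.trans d2) (natDegree_map_le.trans d3)
  have dQ : Q.natDegree ≤ 9 := nd_PF (k.map ι) (natDegree_map_le.trans d0)
    (natDegree_map_le.trans d1) (natDegree_map_le.trans d2) (natDegree_map_le.trans d3) d0 d1 d2 d3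
  have dd : ∀ (u : K[X]) (r s : (AlgebraicClosure K)[X]), s = r.map σ → r.natDegree ≤ 3 →
      u.map ι = C (w - σ w) * (P * s - Q * r) → u.natDegree ≤ 12 := by
    intro u r s h1 h2 h3
    rw [dmap, h3, h1]
    exact nd_C_mul _ (nd_sub (m := 12) (nd_mul dP (natDegree_map_le.trans h2)) (nd_mul dQ h2))
  have hval : ∀ (u : K[X]) (r s : (AlgebraicClosure K)[X]),
      u.map ι = C (w - σ w) * (P * s - Q * r) →
      aeval (0 : AlgebraicClosure K) u = (w - σ w) * (P.eval 0 * s.eval 0 - Q.eval 0 * r.eval 0)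
      := by
    intro u r s h
    have h2 := congrArg (fun f => f.eval 0) h
    simp only [eval_mul, eval_C, eval_sub, eval_map] at h2
    rw [← h2]
    rfl
  refine ⟨u0, u1, u2, u3, ?_, ⟨0, ?_, ?_, ?_, ?_⟩, ?_, dd u0 r0 s0 hs0 d0 hu0,
    dd u1 r1 s1 hs1 d1 hu1, dd u2 r2 s2 hs2 d2 hu2, dd u3 r3 s3 hs3 d3 hu3⟩
  · have h := NF_map (mapRingHom ι) (k.map (C : K →+* K[X])) u0 u1 u2 u3
    have hk : (k.map (C : K →+* K[X])).map (mapRingHom ι) = kk := by
      rw [hkk, Co_map_map, Co_map_map]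
      congr 1
      ext a
      simp
    rw [hk] at h
    simp only [coe_mapRingHom, hu0, hu1, hu2, hu3] at h
    rw [NF_smul, h3, mul_zero] at h
    apply Polynomial.map_injective ι ι.injective
    rw [h, Polynomial.map_zero]
  · rw [hval u0 r0 s0 hu0, eP, eQ, es0, e0]
    ring
  · rw [hval u1 r1 s1 hu1, eP, eQ, es1, e1]
    ring
  · rw [hval u2 r2 s2 hu2, eP, eQ, es2, e2]
    ring
  · rw [hval u3 r3 s3 hu3, eP, eQ, es3, e3]
    have : (w - σ w) * (-(κ ^ 2 * σ κ * (w - σ w) ^ 2) * (σ κ * σ w)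
        - -(κ * σ κ ^ 2 * (w - σ w) ^ 2) * (κ * w)) = κ ^ 2 * σ κ ^ 2 * (w - σ w) ^ 4 := by
      ring
    rw [this]
    exact mul_ne_zero (mul_ne_zero (pow_ne_zero _ hκ) (pow_ne_zero _ hκ')) (pow_ne_zero _ hθ)
  · rintro ⟨h0, h1, h2⟩
    have hz : ∀ (u : K[X]) (r s : (AlgebraicClosure K)[X]),
        u.map ι = C (w - σ w) * (P * s - Q * r) → u = 0 → P * s = Q * r := by
      intro u r s h h'
      rw [h', Polynomial.map_zero] at h
      have h4 := (mul_eq_zero.mp h.symm).resolve_left (by rw [C_eq_zero]; exact hθ)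
      exact sub_eq_zero.mp h4
    have z0 := hz u0 r0 s0 hu0 h0
    have z1 := hz u1 r1 s1 hu1 h1
    have z2 := hz u2 r2 s2 hu2 h2
    rcases hnc with h | h
    · apply h
      have : P * (s1 * r0 - r1 * s0) = 0 := by
        linear_combination r0 * z1 - r1 * z0
      exact sub_eq_zero.mp ((mul_eq_zero.mp this).resolve_left hP0)
    · apply h
      have : P * (s2 * r0 - r2 * s0) = 0 := by
        linear_combination r0 * z2 - r2 * z0
      exact sub_eq_zero.mp ((mul_eq_zero.mp this).resolve_left hP0)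

end Pool.Agent.Q61.CS
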