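import Mathlib

set_option autoImplicit false

namespace Pool.Agent.Q61.CS

open Polynomial

/-- The Frobenius of a finite field `K` on its algebraic closure. -/
lemma exists_frob (K : Type*) [Field K] [Finite K] :
    ∃ σ : AlgebraicClosure K →+* AlgebraicClosure K,
      (∀ a : K, σ (algebraMap K _ a) = algebraMap K _ a) ∧
      (∀ x, σ x = x → ∃ a : K, algebraMap K (AlgebraicClosure K) a = x) := by
  classical
  have := Fintype.ofFinite K
  refine ⟨(FiniteField.frobeniusAlgHom K (AlgebraicClosure K)).toRingHom, fun a => ?_,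
    fun x hx => ?_⟩
  · exact (FiniteField.frobeniusAlgHom K (AlgebraicClosure K)).commutes a
  · have hx' : x ^ Fintype.card K = x := hx
    have hc : 1 < Fintype.card K := Fintype.one_lt_card
    have h := prod_multiset_X_sub_C_of_monic_of_roots_card_eq
      (p := (X ^ Fintype.card K - X : K[X])) (monic_X_pow_sub (by simpa using hc)) (by
        rw [FiniteField.roots_X_pow_card_sub_X, FiniteField.X_pow_card_sub_X_natDegree_eq K hc]
        simp)
    rw [FiniteField.roots_X_pow_card_sub_X] at h
    have h2 := congrArg (fun p => aeval x p) h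
    simp only [map_multiset_prod, Multiset.map_map, map_sub, map_pow, aeval_X, hx', sub_self]
      at h2
    have h3 := Multiset.prod_eq_zero_iff.mp h2
    simp only [Multiset.mem_map, Function.comp_apply, map_sub, aeval_X, aeval_C] at h3
    obtain ⟨a, -, ha⟩ := h3
    exact ⟨a, (sub_eq_zero.mp ha).symm⟩

/-- Elements of a finite field of characteristic two are squares. -/
lemma exists_sq (K : Type*) [Field K] [Finite K] (h2 : (2 : K) = 0) (a : K) :
    ∃ b : K, b ^ 2 = a := by
  have : Fact (Nat.Prime 2) := ⟨Nat.prime_two⟩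
  have : CharP K 2 := by
    refine (CharP.charP_iff_prime_eq_zero Nat.prime_two).mpr ?_
    exact_mod_cast h2
  obtain ⟨b, hb⟩ := (bijective_frobenius K 2).2 a
  exact ⟨b, hb⟩

/-- Elements of a finite field of characteristic three are cubes. -/
lemma exists_cube (K : Type*) [Field K] [Finite K] (h3 : (3 : K) = 0) (a : K) :
    ∃ b : K, b ^ 3 = a := by
  have : Fact (Nat.Prime 3) := ⟨Nat.prime_three⟩
  have : CharP K 3 := by
    refine (CharP.charP_iff_prime_eq_zero Nat.prime_three).mpr ?_
    exact_mod_cast h3
  obtain ⟨b, hb⟩ := (bijective_frobenius K 3).2 a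
  exact ⟨b, hb⟩

/-- A root of a quadratic in the algebraic closure. -/
lemma exists_root_quad (K : Type*) [Field K] (a b c : K) (ha : a ≠ 0) :
    ∃ x : AlgebraicClosure K, algebraMap K _ a * x ^ 2 + algebraMap K _ b * x
      + algebraMap K _ c = 0 := by
  have hd : degree (C (algebraMap K (AlgebraicClosure K) a) * X ^ 2
      + C (algebraMap K (AlgebraicClosure K) b) * X + C (algebraMap K (AlgebraicClosure K) c))
      ≠ 0 := by
    rw [degree_quadratic (by simpa using ha)]
    norm_num
  obtain ⟨x, hx⟩ := IsAlgClosed.exists_root _ hd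
  refine ⟨x, ?_⟩
  simpa [IsRoot.def] using hx

end Pool.Agent.Q61.CS
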