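import Pool.Agent.Q61.CS.Core

set_option autoImplicit false

namespace Pool.Agent.Q61.CS

open Polynomial

/-- Substituting `w + m1 y + m2 z` for `w`. -/
def Co.shiftW {A : Type*} [CommRing A] (k : Co A) (m1 m2 : A) : Co A where
  q1 := k.q1
  q2 := k.q2 + 2 * m1
  q3 := k.q3 + 2 * m2
  q4 := k.q4
  q5 := k.q5
  q6 := k.q6
  c1 := k.c1
  c2 := k.c2 + k.q1 * m1
  c3 := k.c3 + k.q1 * m2
  c4 := k.c4 + k.q2 * m1 + m1 ^ 2
  c5 := k.c5 + k.q3 * m1 + k.q2 * m2 + 2 * m1 * m2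
  c6 := k.c6 + k.q3 * m2 + m2 ^ 2
  c7 := k.c7 + k.q4 * m1
  c8 := k.c8 + k.q5 * m1 + k.q4 * m2
  c9 := k.c9 + k.q6 * m1 + k.q5 * m2
  c10 := k.c10 + k.q6 * m2

/-- Substituting `y + u1 x` for `y` and `z + u2 x` for `z`. -/
def Co.trans {A : Type*} [CommRing A] (k : Co A) (u1 u2 : A) : Co A where
  q1 := k.q1 + k.q2 * u1 + k.q3 * u2 + k.q4 * u1 ^ 2 + k.q5 * u1 * u2 + k.q6 * u2 ^ 2
  q2 := k.q2 + 2 * k.q4 * u1 + k.q5 * u2
  q3 := k.q3 + k.q5 * u1 + 2 * k.q6 * u2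
  q4 := k.q4
  q5 := k.q5
  q6 := k.q6
  c1 := k.c1 + k.c2 * u1 + k.c3 * u2 + k.c4 * u1 ^ 2 + k.c5 * u1 * u2 + k.c6 * u2 ^ 2
    + k.c7 * u1 ^ 3 + k.c8 * u1 ^ 2 * u2 + k.c9 * u1 * u2 ^ 2 + k.c10 * u2 ^ 3
  c2 := k.c2 + 2 * k.c4 * u1 + k.c5 * u2 + 3 * k.c7 * u1 ^ 2 + 2 * k.c8 * u1 * u2 + k.c9 * u2 ^ 2
  c3 := k.c3 + k.c5 * u1 + 2 * k.c6 * u2 + k.c8 * u1 ^ 2 + 2 * k.c9 * u1 * u2
    + 3 * k.c10 * u2 ^ 2
  c4 := k.c4 + 3 * k.c7 * u1 + k.c8 * u2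
  c5 := k.c5 + 2 * k.c8 * u1 + 2 * k.c9 * u2
  c6 := k.c6 + k.c9 * u1 + 3 * k.c10 * u2
  c7 := k.c7
  c8 := k.c8
  c9 := k.c9
  c10 := k.c10

/-- Exchanging `y` and `z`. -/
def Co.swap {A : Type*} [CommRing A] (k : Co A) : Co A where
  q1 := k.q1
  q2 := k.q3
  q3 := k.q2
  q4 := k.q6
  q5 := k.q5
  q6 := k.q4
  c1 := k.c1
  c2 := k.c3
  c3 := k.c2
  c4 := k.c6
  c5 := k.c5
  c6 := k.c4
  c7 := k.c10
  c8 := k.c9
  c9 := k.c8
  c10 := k.c7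

section

variable {A B : Type*} [CommRing A] [CommRing B]

lemma NF_shiftW (k : Co A) (m1 m2 x y z w : A) :
    NF k x y z (w + m1 * y + m2 * z) = NF (k.shiftW m1 m2) x y z w := by
  unfold NF Co.shiftW
  ring

lemma NF_trans (k : Co A) (u1 u2 x y z w : A) :
    NF k x (y + u1 * x) (z + u2 * x) w = NF (k.trans u1 u2) x y z w := by
  unfold NF Co.trans
  ring

lemma NF_swap (k : Co A) (x y z w : A) : NF k x z y w = NF k.swap x y z w := by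
  unfold NF Co.swap
  ring

lemma map_shiftW (f : A →+* B) (k : Co A) (m1 m2 : A) :
    (k.shiftW m1 m2).map f = (k.map f).shiftW (f m1) (f m2) := by
  simp only [Co.map, Co.shiftW, map_add, map_mul, map_pow, map_ofNat]

lemma map_trans (f : A →+* B) (k : Co A) (u1 u2 : A) :
    (k.trans u1 u2).map f = (k.map f).trans (f u1) (f u2) := by
  simp only [Co.map, Co.trans, map_add, map_mul, map_pow, map_ofNat]

lemma map_swap (f : A →+* B) (k : Co A) : k.swap.map f = (k.map f).swap := rfl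

end

variable {K : Type*} [Field K]

lemma RC_of_shiftW (k : Co K) (m1 m2 : K) (h : RC K (k.shiftW m1 m2)) : RC K k := by
  obtain ⟨a, b, c, d, hN, ⟨t, ha, hb, hc, hd⟩, hnz, da, db, dc, ddd⟩ := h
  refine ⟨a, b, c, d + C m1 * b + C m2 * c, ?_, ⟨t, ha, hb, hc, ?_⟩, hnz, da, db, dc, ?_⟩
  · rw [NF_shiftW, ← map_shiftW, hN]
  · simpa [hb, hc] using hd
  · exact natDegree_add_le_of_degree_le (natDegree_add_le_of_degree_le ddd
      ((natDegree_C_mul_le _ _).trans db)) ((natDegree_C_mul_le _ _).trans dc)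

lemma RC_of_trans (k : Co K) (u1 u2 : K) (h : RC K (k.trans u1 u2)) : RC K k := by
  obtain ⟨a, b, c, d, hN, ⟨t, ha, hb, hc, hd⟩, hnz, da, db, dc, ddd⟩ := h
  refine ⟨a, b + C u1 * a, c + C u2 * a, d, ?_, ⟨t, ha, ?_, ?_, hd⟩, ?_, da, ?_, ?_, ddd⟩
  · rw [NF_trans, ← map_trans, hN]
  · simp [ha, hb]
  · simp [ha, hc]
  · rintro ⟨h1, h2, h3⟩
    apply hnz
    refine ⟨h1, ?_, ?_⟩
    · simpa [h1] using h2
    · simpa [h1] using h3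
  · exact natDegree_add_le_of_degree_le db ((natDegree_C_mul_le _ _).trans da)
  · exact natDegree_add_le_of_degree_le dc ((natDegree_C_mul_le _ _).trans da)

lemma RC_of_swap (k : Co K) (h : RC K k.swap) : RC K k := by
  obtain ⟨a, b, c, d, hN, ⟨t, ha, hb, hc, hd⟩, hnz, da, db, dc, ddd⟩ := h
  refine ⟨a, c, b, d, ?_, ⟨t, ha, hc, hb, hd⟩, ?_, da, dc, db, ddd⟩
  · rw [NF_swap, ← map_swap, hN]
  · rintro ⟨h1, h2, h3⟩
    exact hnz ⟨h1, h3, h2⟩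

end Pool.Agent.Q61.CS
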