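import Pool.Agent.Q61.CS.Basic
import Pool.Agent.Q61.CS.Descent
import Pool.Agent.Q61.CS.Lin
import Pool.Agent.Q61.CS.Frob

set_option autoImplicit false
set_option linter.unusedSimpArgs false

namespace Pool.Agent.Q61.CS

open Polynomial

lemma NF_c_line {A : Type*} [CommRing A] (k : Co A) (h7 : k.c7 = 0) (h8 : k.c8 = 0)
    (h9 : k.c9 = 0) (h10 : k.c10 = 0) (l T g1 g2 a b c : A) (e1 : g1 = l * k.q2 + k.c2)
    (e2 : g2 = l * k.q3 + k.c3) (ea : a = l * k.q4 + k.c4) (eb : b = l * k.q5 + k.c5)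
    (ec : c = l * k.q6 + k.c6) (hl : l ^ 2 + k.q1 * l + k.c1 = 0)
    (h0 : a * g2 ^ 2 - b * g2 * g1 + c * g1 ^ 2 = 0) :
    NF k 1 (g2 * T) (-(g1 * T)) l = 0 := by
  unfold NF
  rw [h7, h8, h9, h10]
  have : 1 * l ^ 2 + l * (k.q1 * 1 ^ 2 + k.q2 * 1 * (g2 * T) + k.q3 * 1 * -(g1 * T)
      + k.q4 * (g2 * T) ^ 2 + k.q5 * (g2 * T) * -(g1 * T) + k.q6 * (-(g1 * T)) ^ 2)
      + (k.c1 * 1 ^ 3 + k.c2 * 1 ^ 2 * (g2 * T) + k.c3 * 1 ^ 2 * -(g1 * T)
        + k.c4 * 1 * (g2 * T) ^ 2 + k.c5 * 1 * (g2 * T) * -(g1 * T)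
        + k.c6 * 1 * (-(g1 * T)) ^ 2 + 0 * (g2 * T) ^ 3 + 0 * (g2 * T) ^ 2 * -(g1 * T)
        + 0 * (g2 * T) * (-(g1 * T)) ^ 2 + 0 * (-(g1 * T)) ^ 3)
      = (l ^ 2 + k.q1 * l + k.c1) + T * (g2 * (l * k.q2 + k.c2) - g1 * (l * k.q3 + k.c3))
        + T ^ 2 * ((l * k.q4 + k.c4) * g2 ^ 2 - (l * k.q5 + k.c5) * g2 * g1
          + (l * k.q6 + k.c6) * g1 ^ 2) := by ring
  rw [this, ← e1, ← e2, ← ea, ← eb, ← ec, hl, h0]
  ring

lemma NF_c_conic {A : Type*} [CommRing A] (k : Co A) (h7 : k.c7 = 0) (h8 : k.c8 = 0)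
    (h9 : k.c9 = 0) (h10 : k.c10 = 0) (l T g1 g2 a b c : A) (e1 : g1 = l * k.q2 + k.c2)
    (e2 : g2 = l * k.q3 + k.c3) (ea : a = l * k.q4 + k.c4) (eb : b = l * k.q5 + k.c5)
    (ec : c = l * k.q6 + k.c6) (hl : l ^ 2 + k.q1 * l + k.c1 = 0) :
    NF k (-(a * (g2 + T) ^ 2 - b * (g2 + T) * g1 + c * g1 ^ 2)) ((g2 + T) * (g1 * T))
      (-(g1 * (g1 * T))) (l * -(a * (g2 + T) ^ 2 - b * (g2 + T) * g1 + c * g1 ^ 2)) = 0 := by
  unfold NF
  rw [h7, h8, h9, h10]
  generalize hG : -(a * (g2 + T) ^ 2 - b * (g2 + T) * g1 + c * g1 ^ 2) = x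
  have : x * (l * x) ^ 2 + l * x * (k.q1 * x ^ 2 + k.q2 * x * ((g2 + T) * (g1 * T))
      + k.q3 * x * -(g1 * (g1 * T)) + k.q4 * ((g2 + T) * (g1 * T)) ^ 2
      + k.q5 * ((g2 + T) * (g1 * T)) * -(g1 * (g1 * T)) + k.q6 * (-(g1 * (g1 * T))) ^ 2)
      + (k.c1 * x ^ 3 + k.c2 * x ^ 2 * ((g2 + T) * (g1 * T)) + k.c3 * x ^ 2 * -(g1 * (g1 * T))
        + k.c4 * x * ((g2 + T) * (g1 * T)) ^ 2
        + k.c5 * x * ((g2 + T) * (g1 * T)) * -(g1 * (g1 * T))
        + k.c6 * x * (-(g1 * (g1 * T))) ^ 2 + 0 * ((g2 + T) * (g1 * T)) ^ 3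
        + 0 * ((g2 + T) * (g1 * T)) ^ 2 * -(g1 * (g1 * T))
        + 0 * ((g2 + T) * (g1 * T)) * (-(g1 * (g1 * T))) ^ 2 + 0 * (-(g1 * (g1 * T))) ^ 3)
      = x ^ 3 * (l ^ 2 + k.q1 * l + k.c1)
        + x ^ 2 * g1 * T * ((l * k.q2 + k.c2) * (g2 + T) - (l * k.q3 + k.c3) * g1)
        + x * g1 ^ 2 * T ^ 2 * ((l * k.q4 + k.c4) * (g2 + T) ^ 2
          - (l * k.q5 + k.c5) * (g2 + T) * g1 + (l * k.q6 + k.c6) * g1 ^ 2) := by ring
  rw [this, ← e1, ← e2, ← ea, ← eb, ← ec, hl]
  linear_combination x * g1 ^ 2 * T ^ 2 * (-hG)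

variable {K : Type*} [Field K]

/-- Case (c), the residual conic (or line) is defined over the ground field. -/
lemma RC_c2 (k : Co K) (h7 : k.c7 = 0) (h8 : k.c8 = 0) (h9 : k.c9 = 0) (h10 : k.c10 = 0)
    (l l' : K) (hs : l + l' = -k.q1) (hp : l * l' = k.c1) (hne : l ≠ l')
    (hg : l * k.q2 + k.c2 ≠ 0) : RC K k := by
  have hl : l ^ 2 + k.q1 * l + k.c1 = 0 := by
    linear_combination l * hs - hp
  have hlC := congrArg (C : K → K[X]) hl
  simp only [map_add, map_mul, map_pow, map_zero] at hlC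
  set g1 := l * k.q2 + k.c2 with hg1
  set g2 := l * k.q3 + k.c3 with hg2
  set a := l * k.q4 + k.c4 with ha
  set b := l * k.q5 + k.c5 with hb
  set c := l * k.q6 + k.c6 with hc
  have e1 : (C g1 : K[X]) = C l * (k.map C).q2 + (k.map C).c2 := by
    simp [hg1, Co.map]
  have e2 : (C g2 : K[X]) = C l * (k.map C).q3 + (k.map C).c3 := by
    simp [hg2, Co.map]
  have ea : (C a : K[X]) = C l * (k.map C).q4 + (k.map C).c4 := by
    simp [ha, Co.map]
  have eb : (C b : K[X]) = C l * (k.map C).q5 + (k.map C).c5 := by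
    simp [hb, Co.map]
  have ec : (C c : K[X]) = C l * (k.map C).q6 + (k.map C).c6 := by
    simp [hc, Co.map]
  have f7 : (k.map (C : K →+* K[X])).c7 = 0 := by simp [Co.map, h7]
  have f8 : (k.map (C : K →+* K[X])).c8 = 0 := by simp [Co.map, h8]
  have f9 : (k.map (C : K →+* K[X])).c9 = 0 := by simp [Co.map, h9]
  have f10 : (k.map (C : K →+* K[X])).c10 = 0 := by simp [Co.map, h10]
  by_cases h0 : a * g2 ^ 2 - b * g2 * g1 + c * g1 ^ 2 = 0
  · have h0C := congrArg (C : K → K[X]) h0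
    simp only [map_add, map_sub, map_mul, map_pow, map_zero] at h0C
    have hN := NF_c_line (k.map C) f7 f8 f9 f10 (C l) X (C g1) (C g2) (C a) (C b) (C c) e1 e2 ea
      eb ec hlC h0C
    refine RC_third k l l' hs hp hne _ _ _ _ hN (by simp) ?_ ?_ (by simp) 0 1 one_ne_zero
      (by simp) (by simp) (by simp) (by simp) ?_
    · exact (natDegree_C_mul_le _ _).trans (by simp)
    · rw [natDegree_neg]
      exact (natDegree_C_mul_le _ _).trans (by simp)
    · rintro ⟨-, h⟩
      rw [neg_eq_zero, mul_eq_zero, C_eq_zero] at h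
      exact h.elim hg X_ne_zero
  · have hN := NF_c_conic (k.map C) f7 f8 f9 f10 (C l) X (C g1) (C g2) (C a) (C b) (C c) e1 e2 ea
      eb ec hlC
    refine RC_third k l l' hs hp hne _ _ _ _ hN ?_ ?_ ?_ ?_ 0
      (-algebraMap K _ (a * g2 ^ 2 - b * g2 * g1 + c * g1 ^ 2)) ?_
      ?_ (by simp) (by simp) ?_ ?_
    · compute_degree
      norm_num
    · compute_degree
      norm_num
    · compute_degree
      norm_num
    · compute_degree
      norm_num
    · rw [neg_ne_zero]
      exact (_root_.map_ne_zero _).mpr h0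
    · simp
    · simp
      ring
    · rintro ⟨-, h⟩
      rw [neg_eq_zero, mul_eq_zero, mul_eq_zero, C_eq_zero] at h
      exact h.elim hg fun h => h.elim hg X_ne_zero

/-- A fixed nonzero multiple can be made not fixed. -/
lemma exists_mu {L : Type*} [Field L] (σ : L →+* L) (l ω : L) (hω : ω ≠ 0) (hl : σ l ≠ l)
    (hll : σ (σ l) = l) : ∃ μ : L, σ (σ μ) = μ ∧ σ (μ * ω) ≠ μ * ω := by
  by_cases h : σ ω = ω
  · refine ⟨l, hll, ?_⟩
    rw [map_mul, h]
    intro h'
    exact hl (mul_right_cancel₀ hω h')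
  · exact ⟨1, by simp, by simpa using h⟩

/-- Case (c), the residual conic (or line) is defined over the quadratic extension. -/
lemma RC_c3 (k : Co K) (h7 : k.c7 = 0) (h8 : k.c8 = 0) (h9 : k.c9 = 0) (h10 : k.c10 = 0)
    (σ : AlgebraicClosure K →+* AlgebraicClosure K)
    (hσ : ∀ a : K, σ (algebraMap K _ a) = algebraMap K _ a)
    (hfix : ∀ x, σ x = x → ∃ a : K, algebraMap K (AlgebraicClosure K) a = x)
    (l : AlgebraicClosure K) (hl : l ^ 2 + algebraMap K _ k.q1 * l + algebraMap K _ k.c1 = 0)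
    (hlK : σ l ≠ l) (hll : σ (σ l) = l)
    (hg : l * algebraMap K _ k.q2 + algebraMap K _ k.c2 ≠ 0) : RC K k := by
  set ι := algebraMap K (AlgebraicClosure K) with hι
  have hlC := congrArg (C : AlgebraicClosure K → (AlgebraicClosure K)[X]) hl
  simp only [map_add, map_mul, map_pow, map_zero] at hlC
  set g1 := l * ι k.q2 + ι k.c2 with hg1
  set g2 := l * ι k.q3 + ι k.c3 with hg2
  set a := l * ι k.q4 + ι k.c4 with ha
  set b := l * ι k.q5 + ι k.c5 with hb
  set c := l * ι k.q6 + ι k.c6 with hc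
  have s1 : σ (σ g1) = g1 := by rw [hg1]; simp only [map_add, map_mul, hσ, hll]
  have s2 : σ (σ g2) = g2 := by rw [hg2]; simp only [map_add, map_mul, hσ, hll]
  have sa : σ (σ a) = a := by rw [ha]; simp only [map_add, map_mul, hσ, hll]
  have sb : σ (σ b) = b := by rw [hb]; simp only [map_add, map_mul, hσ, hll]
  have sc : σ (σ c) = c := by rw [hc]; simp only [map_add, map_mul, hσ, hll]
  set kk := ((k.map ι).map (C : AlgebraicClosure K →+* (AlgebraicClosure K)[X])) with hkk
  have e1 : (C g1 : (AlgebraicClosure K)[X]) = C l * kk.q2 + kk.c2 := by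
    simp only [hg1, hkk, Co.map, map_add, map_mul]
  have e2 : (C g2 : (AlgebraicClosure K)[X]) = C l * kk.q3 + kk.c3 := by
    simp only [hg2, hkk, Co.map, map_add, map_mul]
  have ea : (C a : (AlgebraicClosure K)[X]) = C l * kk.q4 + kk.c4 := by
    simp only [ha, hkk, Co.map, map_add, map_mul]
  have eb : (C b : (AlgebraicClosure K)[X]) = C l * kk.q5 + kk.c5 := by
    simp only [hb, hkk, Co.map, map_add, map_mul]
  have ec : (C c : (AlgebraicClosure K)[X]) = C l * kk.q6 + kk.c6 := by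
    simp only [hc, hkk, Co.map, map_add, map_mul]
  have f7 : kk.c7 = 0 := by simp [hkk, Co.map, h7]
  have f8 : kk.c8 = 0 := by simp [hkk, Co.map, h8]
  have f9 : kk.c9 = 0 := by simp [hkk, Co.map, h9]
  have f10 : kk.c10 = 0 := by simp [hkk, Co.map, h10]
  by_cases h0 : a * g2 ^ 2 - b * g2 * g1 + c * g1 ^ 2 = 0
  · have h0C := congrArg (C : AlgebraicClosure K → (AlgebraicClosure K)[X]) h0
    simp only [map_add, map_sub, map_mul, map_pow, map_zero] at h0C
    obtain ⟨μ, hμ, hμω⟩ := exists_mu σ l g1 hg hlK hll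
    have hN := NF_c_line kk f7 f8 f9 f10 (C l) (C μ * X) (C g1) (C g2) (C a) (C b) (C c) e1 e2 ea
      eb ec hlC h0C
    refine RC_descent k σ hσ hfix _ _ _ _ hN (by simp) ?_ ?_ (by simp) ?_ ?_ ?_ ?_ 1 l 0 0
      one_ne_zero (by simp) (by simp) (by simp) (by simp) hlK ?_
    · compute_degree
      norm_num
    · compute_degree
      norm_num
    · simp
    · simp only [Polynomial.map_mul, map_C, map_X, s2, hμ]
    · simp only [Polynomial.map_neg, Polynomial.map_mul, map_C, map_X, s1, hμ]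
    · simp only [map_C, hll]
    · right
      intro h
      apply hμω
      have h' := congrArg (fun f => coeff f 1) h
      simp only [Polynomial.map_neg, Polynomial.map_mul, map_C, map_X, Polynomial.map_one, mul_one,
        ← mul_assoc, ← C_mul, coeff_neg, coeff_C_mul, coeff_X_one] at h'
      rw [mul_comm μ g1]
      linear_combination -h'
  · set c0 := a * g2 ^ 2 - b * g2 * g1 + c * g1 ^ 2 with hc0
    have sc0 : σ (σ c0) = c0 := by
      rw [hc0]; simp only [map_add, map_sub, map_mul, map_pow, s1, s2, sa, sb, sc]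
    have sc0' : σ c0 ≠ 0 := by simpa using h0
    obtain ⟨μ, hμ, hμω⟩ := exists_mu σ l (g1 ^ 2 / c0) (div_ne_zero (pow_ne_zero _ hg) h0) hlK hll
    have hN := NF_c_conic kk f7 f8 f9 f10 (C l) (C μ * X) (C g1) (C g2) (C a) (C b) (C c) e1 e2 ea
      eb ec hlC
    refine RC_descent k σ hσ hfix _ _ _ _ hN ?_ ?_ ?_ ?_ ?_ ?_ ?_ ?_ (-c0) l 0 0
      (by simpa using h0) ?_ ?_ ?_ ?_ hlK ?_
    · compute_degree
      norm_num
    · compute_degree
      norm_num
    · compute_degree
      norm_num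
    · compute_degree
      norm_num
    · simp only [Polynomial.map_neg, Polynomial.map_mul, Polynomial.map_add, Polynomial.map_sub,
        Polynomial.map_pow, map_C, map_X, s1, s2, sa, sb, sc, hμ]
    · simp only [Polynomial.map_neg, Polynomial.map_mul, Polynomial.map_add, Polynomial.map_sub,
        Polynomial.map_pow, map_C, map_X, s1, s2, sa, sb, sc, hμ]
    · simp only [Polynomial.map_neg, Polynomial.map_mul, Polynomial.map_add, Polynomial.map_sub,
        Polynomial.map_pow, map_C, map_X, s1, s2, sa, sb, sc, hμ]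
    · simp only [Polynomial.map_neg, Polynomial.map_mul, Polynomial.map_add, Polynomial.map_sub,
        Polynomial.map_pow, map_C, map_X, s1, s2, sa, sb, sc, hμ, hll]
    · simp only [eval_neg, eval_mul, eval_add, eval_sub, eval_pow, eval_C, eval_X, mul_zero,
        add_zero, hc0]
    · simp only [eval_neg, eval_mul, eval_add, eval_sub, eval_pow, eval_C, eval_X, mul_zero,
        add_zero, map_zero]
    · simp only [eval_neg, eval_mul, eval_add, eval_sub, eval_pow, eval_C, eval_X, mul_zero,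
        add_zero, map_zero, neg_zero]
    · simp only [eval_neg, eval_mul, eval_add, eval_sub, eval_pow, eval_C, eval_X, mul_zero,
        add_zero, hc0]
      ring
    · right
      intro h
      apply hμω
      -- compare the coefficients of degree one, i.e. divide by `X` and evaluate at zero
      have h' : X * ((C (σ g1) * (C (σ g1) * C (σ μ)))
          * (C a * (C g2 + C μ * X) ^ 2 - C b * (C g2 + C μ * X) * C g1 + C c * C g1 ^ 2))
          = X * ((C g1 * (C g1 * C μ)) * (C (σ a) * (C (σ g2) + C (σ μ) * X) ^ 2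
            - C (σ b) * (C (σ g2) + C (σ μ) * X) * C (σ g1) + C (σ c) * C (σ g1) ^ 2)) := by
        simp only [Polynomial.map_neg, Polynomial.map_mul, Polynomial.map_add, Polynomial.map_sub,
          Polynomial.map_pow, map_C, map_X] at h
        linear_combination h
      have h'' := congrArg (fun f => eval 0 f) (mul_left_cancel₀ X_ne_zero h')
      simp only [eval_mul, eval_add, eval_sub, eval_pow, eval_C, eval_X, mul_zero,
        add_zero] at h''
      have h3 : σ (g1 ^ 2 * μ) * c0 = (g1 ^ 2 * μ) * σ c0 := by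
        rw [hc0]
        simp only [map_add, map_sub, map_mul, map_pow]
        linear_combination h''
      have h4 : σ (μ * (g1 ^ 2 / c0)) = σ (g1 ^ 2 * μ) / σ c0 := by
        rw [← map_div₀]
        congr 1
        ring
      rw [h4, div_eq_iff sc0']
      field_simp
      linear_combination h3

/-- Case (c) after normalisation. -/
lemma RC_c_core [Finite K] (k : Co K) (h7 : k.c7 = 0) (h8 : k.c8 = 0) (h9 : k.c9 = 0)
    (h10 : k.c10 = 0) (hq2 : k.q2 ≠ 0) : RC K k := by
  obtain ⟨l, hl⟩ := exists_root_quad K 1 k.q1 k.c1 one_ne_zero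
  rw [map_one, one_mul] at hl
  obtain ⟨σ, hσ, hfix⟩ := exists_frob K
  by_cases hlK : σ l = l
  · obtain ⟨l, rfl⟩ := hfix l hlK
    have hl' : l ^ 2 + k.q1 * l + k.c1 = 0 := by
      apply (algebraMap K (AlgebraicClosure K)).injective
      simpa using hl
    by_cases h2 : 2 * l + k.q1 = 0
    · exact RC_branch k l hl' h2
    · have hs : l + (-k.q1 - l) = -k.q1 := by ring
      have hp : l * (-k.q1 - l) = k.c1 := by linear_combination -hl'
      have hne : l ≠ -k.q1 - l := by
        intro h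
        apply h2
        linear_combination h
      by_cases hg : l * k.q2 + k.c2 = 0
      · refine RC_c2 k h7 h8 h9 h10 (-k.q1 - l) l (by rw [add_comm]; exact hs)
          (by rw [mul_comm]; exact hp) hne.symm ?_
        intro hg'
        have : (l - (-k.q1 - l)) * k.q2 = 0 := by linear_combination hg - hg'
        exact (mul_eq_zero.mp this).elim (fun h => hne (sub_eq_zero.mp h)) hq2
      · exact RC_c2 k h7 h8 h9 h10 l (-k.q1 - l) hs hp hne hg
  · have hl2 : (σ l) ^ 2 + algebraMap K _ k.q1 * σ l + algebraMap K _ k.c1 = 0 := by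
      have := congrArg σ hl
      simpa [hσ] using this
    have hsum : l + σ l = -algebraMap K _ k.q1 := by
      have : (l - σ l) * (l + σ l + algebraMap K _ k.q1) = 0 := by
        linear_combination hl - hl2
      have h' := (mul_eq_zero.mp this).resolve_left (fun h => hlK (sub_eq_zero.mp h).symm)
      linear_combination h'
    have hll : σ (σ l) = l := by
      have := congrArg σ hsum
      rw [map_add, map_neg, hσ] at this
      linear_combination this - hsum
    refine RC_c3 k h7 h8 h9 h10 σ hσ hfix l hl hlK hll ?_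
    intro h
    apply hlK
    have h' : l = algebraMap K _ (-k.c2 / k.q2) := by
      rw [map_div₀, map_neg, eq_div_iff ((_root_.map_ne_zero _).mpr hq2)]
      linear_combination h
    rw [h', hσ]

end Pool.Agent.Q61.CS
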