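import Pool.Agent.Q61.CS.Lin
import Pool.Agent.Q61.CS.Frob

set_option autoImplicit false

namespace Pool.Agent.Q61.CS

open Polynomial

/-- The cubic part at infinity. -/
def dM {A : Type*} [CommRing A] (k : Co A) (s t : A) : A :=
  k.c7 * s ^ 3 + k.c8 * s ^ 2 * t + k.c9 * s * t ^ 2 + k.c10 * t ^ 3

/-- The linear form `c2 s + c3 t`. -/
def dE {A : Type*} [CommRing A] (k : Co A) (s t : A) : A := k.c2 * s + k.c3 * t

/-- The quadratic form describing the node of the tangent section. -/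
def dQ {A : Type*} [CommRing A] (k : Co A) (D s t : A) : A :=
  (k.c2 ^ 2 + D * k.c4) * s ^ 2 + (2 * k.c2 * k.c3 + D * k.c5) * s * t
    + (k.c3 ^ 2 + D * k.c6) * t ^ 2

/-- The discriminant. -/
def dD {A : Type*} [CommRing A] (k : Co A) : A := k.q1 ^ 2 - 4 * k.c1

/-- Some translate has a nonzero nodal quadratic form. -/
lemma key_d {K : Type*} [Field K] [Finite K] (k : Co K) (h2 : k.q2 = 0) (h3 : k.q3 = 0)
    (h4 : k.q4 = 0) (h5 : k.q5 = 0) (h6 : k.q6 = 0)
    (hC : ∀ s t : K, dM k s t = 0 → s = 0 ∧ t = 0)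
    (hD : ∀ u1 u2 : K, dD (k.trans u1 u2) ≠ 0) :
    ∃ u1 u2 : K, ¬ ((k.trans u1 u2).c2 ^ 2 + dD (k.trans u1 u2) * (k.trans u1 u2).c4 = 0 ∧
      2 * (k.trans u1 u2).c2 * (k.trans u1 u2).c3
        + dD (k.trans u1 u2) * (k.trans u1 u2).c5 = 0 ∧
      (k.trans u1 u2).c3 ^ 2 + dD (k.trans u1 u2) * (k.trans u1 u2).c6 = 0) := by
  by_contra hcon
  push Not at hcon
  have hall : ∀ u1 u2 : K,
      (k.trans u1 u2).c2 ^ 2 + dD (k.trans u1 u2) * (k.trans u1 u2).c4 = 0 ∧
      2 * (k.trans u1 u2).c2 * (k.trans u1 u2).c3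
        + dD (k.trans u1 u2) * (k.trans u1 u2).c5 = 0 ∧
      (k.trans u1 u2).c3 ^ 2 + dD (k.trans u1 u2) * (k.trans u1 u2).c6 = 0 := by
    intro u1 u2
    by_contra h
    exact h (by
      by_contra h'
      exact h' (by simpa using hcon u1 u2))
  simp only [dD, Co.trans, h2, h3, h4, h5, h6] at hall hD
  have hc7 : k.c7 ≠ 0 := by
    intro h
    have := (hC 1 0 (by unfold dM; rw [h]; ring)).1
    exact one_ne_zero this
  have hc10 : k.c10 ≠ 0 := by
    intro h
    have := (hC 0 1 (by unfold dM; rw [h]; ring)).2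
    exact one_ne_zero this
  by_cases c2 : (2 : K) = 0
  · obtain ⟨a00, b00, g00⟩ := hall 0 0
    obtain ⟨a10, -, g10⟩ := hall 1 0
    obtain ⟨a01, -, g01⟩ := hall 0 1
    have d00 := hD 0 0
    have hc5 : k.c5 = 0 := by
      have h : (k.q1 ^ 2 - 4 * k.c1) * k.c5 = 0 := by
        linear_combination b00 - k.c2 * k.c3 * c2
      refine (mul_eq_zero.mp h).resolve_left ?_
      intro h'
      apply d00
      linear_combination h'
    have e7 : k.c7 = k.q1 ^ 2 := by
      have : k.c7 * (k.c7 - k.q1 ^ 2) = 0 := by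
        linear_combination a10 - a00 - (-6*k.c1*k.c7 - 3*k.c2*k.c7 - 2*k.c4*k.c7 + k.c7*k.q1^2
          - 2*k.c7^2 + k.c7 * k.q1 ^ 2) * c2
      exact sub_eq_zero.mp ((mul_eq_zero.mp this).resolve_left hc7)
    have e10 : k.c10 = k.q1 ^ 2 := by
      have : k.c10 * (k.c10 - k.q1 ^ 2) = 0 := by
        linear_combination g01 - g00 - (-6*k.c1*k.c10 - 3*k.c10*k.c3 - 2*k.c10*k.c6
          + k.c10*k.q1^2 - 2*k.c10^2 + k.c10 * k.q1 ^ 2) * c2
      exact sub_eq_zero.mp ((mul_eq_zero.mp this).resolve_left hc10)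
    have e9 : k.c9 ^ 2 = k.c7 * k.c8 := by
      rw [e7]
      linear_combination a01 - a00 - (-2*k.c1*k.c8 - 2*k.c10*k.c4 - 2*k.c10*k.c8 + k.c2*k.c9
        - 2*k.c3*k.c4 - 2*k.c3*k.c8 - 2*k.c4*k.c6 - 2*k.c6*k.c8 + k.q1 ^ 2 * k.c8) * c2
        - (2*k.c2 + k.c5 + 2*k.c9) * hc5
    have e8 : k.c8 ^ 2 = k.c7 * k.c9 := by
      rw [e7]
      linear_combination g10 - g00 - (-2*k.c1*k.c9 - 2*k.c2*k.c6 - 2*k.c2*k.c9 + k.c3*k.c8
        - 2*k.c4*k.c6 - 2*k.c4*k.c9 - 2*k.c6*k.c7 - 2*k.c7*k.c9 + k.q1 ^ 2 * k.c9) * c2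
        - (2*k.c3 + k.c5 + 2*k.c8) * hc5
    by_cases h9 : k.c9 = 0
    · have h8 : k.c8 = 0 := by
        rw [h9] at e8
        exact (pow_eq_zero_iff two_ne_zero).mp (by rw [e8]; ring)
      have := (hC 1 1 (by
        unfold dM
        rw [h8, h9, e7, e10]
        linear_combination k.q1 ^ 2 * c2)).1
      exact one_ne_zero this
    · have := (hC k.c9 k.c8 (by
        unfold dM
        rw [e10, ← e7]
        linear_combination (k.c7 * k.c9) * e9 + (k.c7 * k.c8) * e8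
          + (k.c8 ^ 2 * k.c9 ^ 2 + k.c7 ^ 2 * k.c8 * k.c9) * c2)).1
      exact h9 this
  · by_cases c3 : (3 : K) = 0
    · have hc4 : k.c4 = 0 := by
        have h0 := (hall 0 0).1
        have h1 := (hall 1 0).1
        have : k.c7 * k.c4 = 0 := by
          linear_combination -h1 + h0 + (-4*k.c1*k.c7 - 2*k.c2*k.c7 - k.c4*k.c7 + k.c7*k.q1^2
            - k.c7^2) * c3
        exact (mul_eq_zero.mp this).resolve_left hc7
      have hc8 : k.c8 = 0 := by
        have h0 := (hall 0 1).1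
        have h1 := (hall 1 1).1
        have : k.c7 * k.c8 = 0 := by
          linear_combination -h1 + h0 + (-4*k.c1*k.c7 - 4*k.c10*k.c7 - 2*k.c2*k.c7 - 4*k.c3*k.c7
            - k.c4*k.c7 - 2*k.c5*k.c7 - 4*k.c6*k.c7 - k.c7*k.c8 - 2*k.c7*k.c9 + k.c7*k.q1^2
            - k.c7^2) * c3 - k.c7 * hc4
        exact (mul_eq_zero.mp this).resolve_left hc7
      have hc6 : k.c6 = 0 := by
        have h0 := (hall 0 0).2.2
        have h1 := (hall 0 1).2.2
        have : k.c10 * k.c6 = 0 := by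
          linear_combination -h1 + h0 + (-4*k.c1*k.c10 - 2*k.c10*k.c3 - k.c10*k.c6
            + k.c10*k.q1^2 - k.c10^2) * c3
        exact (mul_eq_zero.mp this).resolve_left hc10
      have hc9 : k.c9 = 0 := by
        have h0 := (hall 1 0).2.2
        have h1 := (hall 1 1).2.2
        have : k.c10 * k.c9 = 0 := by
          linear_combination -h1 + h0 + (-4*k.c1*k.c10 - 4*k.c10*k.c2 - 2*k.c10*k.c3
            - 4*k.c10*k.c4 - 2*k.c10*k.c5 - k.c10*k.c6 - 4*k.c10*k.c7 - 2*k.c10*k.c8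
            - k.c10*k.c9 + k.c10*k.q1^2 - k.c10^2) * c3 - k.c10 * hc6
        exact (mul_eq_zero.mp this).resolve_left hc10
      obtain ⟨α, hα⟩ := exists_cube K c3 k.c7
      obtain ⟨β, hβ⟩ := exists_cube K c3 k.c10
      have := (hC β (-α) (by
        unfold dM
        rw [hc8, hc9, ← hα, ← hβ]
        ring)).2
      apply hc7
      rw [← hα, neg_eq_zero.mp this]
      ring
    · have h0 := (hall 0 0).1
      have h1 := (hall 1 0).1
      have h2' := (hall 2 0).1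
      have h3' := (hall 3 0).1
      have h4' := (hall 4 0).1
      have : 2 ^ 3 * 3 ^ 2 * k.c7 ^ 2 = 0 := by
        linear_combination -(h4' - 4 * h3' + 6 * h2' - 4 * h1 + h0)
      have h7 := (mul_eq_zero.mp this).resolve_left
        (mul_ne_zero (pow_ne_zero _ c2) (pow_ne_zero _ c3))
      exact hc7 ((pow_eq_zero_iff two_ne_zero).mp h7)

end Pool.Agent.Q61.CS
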