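import Pool.Agent.Q61.CS.Basic
import Pool.Agent.Q61.CS.Descent
import Pool.Agent.Q61.CS.KeyD

set_option autoImplicit false
set_option linter.unusedSimpArgs false

namespace Pool.Agent.Q61.CS

open Polynomial

section

variable {A B : Type*} [CommRing A] [CommRing B]

lemma dM_map (f : A →+* B) (k : Co A) (s t : A) : f (dM k s t) = dM (k.map f) (f s) (f t) := by
  simp only [dM, Co.map, map_add, map_mul, map_pow]

lemma dE_map (f : A →+* B) (k : Co A) (s t : A) : f (dE k s t) = dE (k.map f) (f s) (f t) := by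
  simp only [dE, Co.map, map_add, map_mul, map_pow]

lemma dQ_map (f : A →+* B) (k : Co A) (D s t : A) :
    f (dQ k D s t) = dQ (k.map f) (f D) (f s) (f t) := by
  simp only [dQ, Co.map, map_add, map_mul, map_pow, map_ofNat]

/-- The tangent section at `(1 : 0 : 0 : l)`, a nodal cubic. -/
lemma NF_d (k : Co A) (h2 : k.q2 = 0) (h3 : k.q3 = 0) (h4 : k.q4 = 0) (h5 : k.q5 = 0)
    (h6 : k.q6 = 0) (l δ D s t : A) (hl : l ^ 2 + k.q1 * l + k.c1 = 0)
    (hδ : δ = 2 * l + k.q1) (hD : D = δ ^ 2) :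
    NF k (D ^ 2 * dM k s t) (-(D * s * dQ k D s t)) (-(D * t * dQ k D s t))
      (l * (D ^ 2 * dM k s t) + dE k s t * δ * dQ k D s t) = 0 := by
  have hM : dM k s t = k.c7 * s ^ 3 + k.c8 * s ^ 2 * t + k.c9 * s * t ^ 2 + k.c10 * t ^ 3 := rfl
  have hE : dE k s t = k.c2 * s + k.c3 * t := rfl
  have hQ : dQ k D s t = (k.c2 * s + k.c3 * t) ^ 2
      + D * (k.c4 * s ^ 2 + k.c5 * s * t + k.c6 * t ^ 2) := by
    unfold dQ
    ring
  generalize dM k s t = M at *
  generalize dE k s t = E at *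
  generalize dQ k D s t = Q at *
  unfold NF
  rw [h2, h3, h4, h5, h6]
  linear_combination (D ^ 2 * M) ^ 3 * hl - (D ^ 2 * M) ^ 2 * E * δ * Q * hδ
    - ((D ^ 2 * M) ^ 2 * E * Q + (D ^ 2 * M) * E ^ 2 * Q ^ 2) * hD
    + (D ^ 2 * M) ^ 2 * D * Q * hE + D ^ 3 * Q ^ 3 * hM - (D ^ 2 * M) * D * Q ^ 2 * hQ
    + (D ^ 2 * M) * D * Q ^ 2 * (E + (k.c2 * s + k.c3 * t)) * hE

end

variable {K : Type*} [Field K]

lemma nd_dM (k : Co K) {s t : K[X]} (hs : s.natDegree ≤ 1) (ht : t.natDegree ≤ 1) :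
    (dM (k.map C) s t).natDegree ≤ 3 := by
  have h : dM (k.map C) s t = C k.c7 * (s * s * s) + C k.c8 * (s * s * t) + C k.c9 * (s * t * t)
      + C k.c10 * (t * t * t) := by
    simp only [dM, Co.map]
    ring
  rw [h]
  exact nd_add (nd_add (nd_add (nd_C_mul _ (nd_mul (nd_mul hs hs) hs))
    (nd_C_mul _ (nd_mul (nd_mul hs hs) ht))) (nd_C_mul _ (nd_mul (nd_mul hs ht) ht)))
    (nd_C_mul _ (nd_mul (nd_mul ht ht) ht))

lemma nd_dE (k : Co K) {s t : K[X]} (hs : s.natDegree ≤ 1) (ht : t.natDegree ≤ 1) :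
    (dE (k.map C) s t).natDegree ≤ 1 := by
  simp only [dE, Co.map]
  exact nd_add (nd_C_mul _ hs) (nd_C_mul _ ht)

lemma nd_dQ (k : Co K) (D : K) {s t : K[X]} (hs : s.natDegree ≤ 1) (ht : t.natDegree ≤ 1) :
    (dQ (k.map C) (C D) s t).natDegree ≤ 2 := by
  have h : dQ (k.map C) (C D) s t = C (k.c2 ^ 2 + D * k.c4) * (s * s)
      + C (2 * k.c2 * k.c3 + D * k.c5) * (s * t) + C (k.c3 ^ 2 + D * k.c6) * (t * t) := by
    simp only [dQ, Co.map, map_add, map_mul, map_pow, map_ofNat]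
    ring
  rw [h]
  exact nd_add (nd_add (nd_C_mul _ (nd_mul hs hs)) (nd_C_mul _ (nd_mul hs ht)))
    (nd_C_mul _ (nd_mul ht ht))

lemma nd_r0 (k : Co K) (D : K) {s t : K[X]} (hs : s.natDegree ≤ 1) (ht : t.natDegree ≤ 1) :
    ((C D) ^ 2 * dM (k.map C) s t).natDegree ≤ 3 := by
  rw [← C_pow]
  exact nd_C_mul _ (nd_dM k hs ht)

lemma nd_r1 (k : Co K) (D : K) {s t : K[X]} (hs : s.natDegree ≤ 1) (ht : t.natDegree ≤ 1) :
    (-(C D * s * dQ (k.map C) (C D) s t)).natDegree ≤ 3 := by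
  rw [natDegree_neg]
  exact nd_mul (m := 1) (n := 2) (nd_C_mul _ hs) (nd_dQ k D hs ht)

lemma nd_r2 (k : Co K) (D : K) {s t : K[X]} (hs : s.natDegree ≤ 1) (ht : t.natDegree ≤ 1) :
    (-(C D * t * dQ (k.map C) (C D) s t)).natDegree ≤ 3 := by
  rw [natDegree_neg]
  exact nd_mul (m := 1) (n := 2) (nd_C_mul _ ht) (nd_dQ k D hs ht)

lemma nd_r3 (k : Co K) (D l δ : K) {s t : K[X]} (hs : s.natDegree ≤ 1) (ht : t.natDegree ≤ 1) :
    (C l * ((C D) ^ 2 * dM (k.map C) s t)
      + dE (k.map C) s t * C δ * dQ (k.map C) (C D) s t).natDegree ≤ 3 := by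
  refine nd_add (nd_C_mul _ (nd_r0 k D hs ht)) ?_
  exact nd_mul (m := 1) (n := 2) ((natDegree_mul_C_le _ _).trans (nd_dE k hs ht)) (nd_dQ k D hs ht)

lemma dQ_poly (k : Co K) (D : K) (s t : K[X]) : dQ (k.map C) (C D) s t
    = C (k.c2 ^ 2 + D * k.c4) * s ^ 2 + C (2 * k.c2 * k.c3 + D * k.c5) * s * t
      + C (k.c3 ^ 2 + D * k.c6) * t ^ 2 := by
  simp only [dQ, Co.map, map_add, map_mul, map_pow, map_ofNat]

lemma quad_zero (a b c : K) (h : (C a : K[X]) + C b * X + C c * X ^ 2 = 0) :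
    a = 0 ∧ b = 0 ∧ c = 0 := by
  refine ⟨?_, ?_, ?_⟩
  · simpa using congrArg (fun p => coeff p 0) h
  · simpa [coeff_X_pow, coeff_C] using congrArg (fun p => coeff p 1) h
  · simpa [coeff_X, coeff_C] using congrArg (fun p => coeff p 2) h

/-- An anisotropic binary cubic has no root in a quadratic extension. -/
lemma dM_ne_zero (k : Co K) (hC : ∀ s t : K, dM k s t = 0 → s = 0 ∧ t = 0)
    (ρ : AlgebraicClosure K) (a b c : K) (ha : a ≠ 0)
    (hρ : algebraMap K _ a * ρ ^ 2 + algebraMap K _ b * ρ + algebraMap K _ c = 0) :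
    dM (k.map (algebraMap K (AlgebraicClosure K))) ρ 1 ≠ 0 := by
  intro hM
  have hc7 : k.c7 ≠ 0 := by
    intro h
    have := (hC 1 0 (by unfold dM; rw [h]; ring)).1
    exact one_ne_zero this
  set M : K[X] := C k.c7 * X ^ 3 + C k.c8 * X ^ 2 + C k.c9 * X + C k.c10 with hMdef
  set Q : K[X] := C a * X ^ 2 + C b * X + C c with hQdef
  have dMM : M.natDegree = 3 := natDegree_cubic hc7
  have dQQ : Q.natDegree = 2 := natDegree_quadratic ha
  have hM0 : M ≠ 0 := fun h => by rw [h] at dMM; simp at dMM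
  have hQ0 : Q ≠ 0 := fun h => by rw [h] at dQQ; simp at dQQ
  have hirr : Irreducible M := by
    rw [irreducible_iff_roots_eq_zero_of_degree_le_three (by omega) (by omega)]
    rw [Multiset.eq_zero_iff_forall_notMem]
    intro r hr
    rw [mem_roots hM0, IsRoot.def] at hr
    have := (hC r 1 (by
      unfold dM
      rw [← hr]
      simp [hMdef])).2
    exact one_ne_zero this
  have hint : IsIntegral K ρ := Algebra.IsIntegral.isIntegral ρ
  have h1 : aeval ρ M = 0 := by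
    rw [← hM]
    simp [hMdef, dM, Co.map]
  have h2 : aeval ρ Q = 0 := by
    rw [← hρ]
    simp [hQdef]
  have d1 : minpoly K ρ ∣ M := minpoly.dvd K ρ h1
  have d2 : minpoly K ρ ∣ Q := minpoly.dvd K ρ h2
  have d3 : M ∣ minpoly K ρ := (minpoly.irreducible hint).dvd_symm hirr d1
  have := natDegree_le_of_dvd (d3.trans d2) hQ0
  omega

/-- Case (d), the nodal cubic is defined over the ground field. -/
lemma RC_d2 (k : Co K) (h2 : k.q2 = 0) (h3 : k.q3 = 0) (h4 : k.q4 = 0) (h5 : k.q5 = 0)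
    (h6 : k.q6 = 0) (hC : ∀ s t : K, dM k s t = 0 → s = 0 ∧ t = 0) (l l' : K)
    (hs : l + l' = -k.q1) (hp : l * l' = k.c1) (hne : l ≠ l')
    (hQ : ¬ (k.c2 ^ 2 + dD k * k.c4 = 0 ∧ 2 * k.c2 * k.c3 + dD k * k.c5 = 0 ∧
      k.c3 ^ 2 + dD k * k.c6 = 0)) : RC K k := by
  have hl : l ^ 2 + k.q1 * l + k.c1 = 0 := by
    linear_combination l * hs - hp
  have hD0 : dD k = (2 * l + k.q1) ^ 2 := by
    unfold dD
    linear_combination -4 * hl
  have hDne : dD k ≠ 0 := by
    rw [hD0]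
    apply pow_ne_zero
    intro h
    apply hne
    linear_combination h - hs
  have hc7 : k.c7 ≠ 0 := by
    intro h
    have := (hC 1 0 (by unfold dM; rw [h]; ring)).1
    exact one_ne_zero this
  set D := dD k with hDdef
  set δ := 2 * l + k.q1 with hδ
  have f2 : (k.map (C : K →+* K[X])).q2 = 0 := by simp [Co.map, h2]
  have f3 : (k.map (C : K →+* K[X])).q3 = 0 := by simp [Co.map, h3]
  have f4 : (k.map (C : K →+* K[X])).q4 = 0 := by simp [Co.map, h4]
  have f5 : (k.map (C : K →+* K[X])).q5 = 0 := by simp [Co.map, h5]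
  have f6 : (k.map (C : K →+* K[X])).q6 = 0 := by simp [Co.map, h6]
  have hlC : (C l : K[X]) ^ 2 + (k.map (C : K →+* K[X])).q1 * C l + (k.map C).c1 = 0 := by
    have := congrArg (C : K → K[X]) hl
    simpa only [map_add, map_mul, map_pow, map_zero, Co.map] using this
  have hδC : (C δ : K[X]) = 2 * C l + (k.map (C : K →+* K[X])).q1 := by
    simp only [hδ, map_add, map_mul, map_ofNat, Co.map]
  have hDC : (C D : K[X]) = C δ ^ 2 := by
    rw [← C_pow, hD0]
  -- general construction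
  have gen : ∀ (s t : K[X]) (t0 : AlgebraicClosure K), s.natDegree ≤ 1 → t.natDegree ≤ 1 →
      dM (k.map (algebraMap K (AlgebraicClosure K))) (aeval t0 s) (aeval t0 t) ≠ 0 →
      dQ (k.map (algebraMap K (AlgebraicClosure K))) (algebraMap K _ D) (aeval t0 s)
        (aeval t0 t) = 0 →
      ¬ (s * dQ (k.map C) (C D) s t = 0 ∧ t * dQ (k.map C) (C D) s t = 0) → RC K k := by
    intro s t t0 ds dt hM0 hQ0 hnz
    have hN := NF_d (k.map (C : K →+* K[X])) f2 f3 f4 f5 f6 (C l) (C δ) (C D) s t hlC hδC hDC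
    have hmap : (k.map (C : K →+* K[X])).map
        (aeval t0 : K[X] →ₐ[K] AlgebraicClosure K).toRingHom
        = k.map (algebraMap K (AlgebraicClosure K)) := by
      rw [Co_map_map]
      congr 1
      ext a
      simp
    have eM : aeval t0 (dM (k.map C) s t)
        = dM (k.map (algebraMap K (AlgebraicClosure K))) (aeval t0 s) (aeval t0 t) := by
      have := dM_map (aeval t0 : K[X] →ₐ[K] AlgebraicClosure K).toRingHom (k.map C) s t
      rw [hmap] at this
      exact this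
    have eQ : aeval t0 (dQ (k.map C) (C D) s t) = 0 := by
      have := dQ_map (aeval t0 : K[X] →ₐ[K] AlgebraicClosure K).toRingHom (k.map C) (C D) s t
      rw [hmap] at this
      simp only [AlgHom.toRingHom_eq_coe, RingHom.coe_coe, aeval_C] at this
      rw [this, hQ0]
    refine RC_third k l l' hs hp hne _ _ _ _ hN (nd_r0 k D ds dt) (nd_r1 k D ds dt)
      (nd_r2 k D ds dt) (nd_r3 k D l δ ds dt) t0 _ ?_ rfl ?_ ?_ ?_ ?_
    · rw [map_mul, map_pow, eM, aeval_C]
      exact mul_ne_zero (pow_ne_zero _ ((_root_.map_ne_zero _).mpr hDne)) hM0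
    · rw [map_neg, map_mul, eQ, mul_zero, neg_zero]
    · rw [map_neg, map_mul, eQ, mul_zero, neg_zero]
    · simp only [map_add, map_mul, eQ, mul_zero, add_zero, aeval_C]
      ring
    · rintro ⟨h7, h8⟩
      apply hnz
      have hCD : (C D : K[X]) ≠ 0 := by
        rw [Ne, C_eq_zero]; exact hDne
      constructor
      · have : C D * (s * dQ (k.map C) (C D) s t) = 0 := by linear_combination -h7
        exact (mul_eq_zero.mp this).resolve_left hCD
      · have : C D * (t * dQ (k.map C) (C D) s t) = 0 := by linear_combination -h8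
        exact (mul_eq_zero.mp this).resolve_left hCD
  by_cases hA : k.c2 ^ 2 + D * k.c4 = 0
  · refine gen 1 X 0 (by simp) (by simp) ?_ ?_ ?_
    · simp [dM, Co.map, hc7]
    · have := congrArg (algebraMap K (AlgebraicClosure K)) hA
      simp only [map_add, map_mul, map_pow, map_zero] at this
      simp [dQ, Co.map, this]
    · rintro ⟨h7, -⟩
      apply hQ
      rw [one_mul, dQ_poly] at h7
      exact quad_zero _ _ _ (by rw [← h7]; ring)
  · obtain ⟨ρ, hρ⟩ := exists_root_quad K _ (2 * k.c2 * k.c3 + D * k.c5) (k.c3 ^ 2 + D * k.c6) hA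
    refine gen X 1 ρ (by simp) (by simp) ?_ ?_ ?_
    · simpa using dM_ne_zero k hC ρ _ _ _ hA hρ
    · simp only [map_add, map_mul, map_pow, map_ofNat] at hρ
      simp only [dQ, Co.map, aeval_X, map_one]
      linear_combination hρ
    · rintro ⟨-, h8⟩
      apply hA
      rw [one_mul, dQ_poly] at h8
      exact (quad_zero (k.c3 ^ 2 + D * k.c6) (2 * k.c2 * k.c3 + D * k.c5) _
        (by rw [← h8]; ring)).2.2

end Pool.Agent.Q61.CS
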