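import Pool.Agent.Q61.CS.CaseC

set_option autoImplicit false

namespace Pool.Agent.Q61.CS

open Polynomial

variable {K : Type*} [Field K]

lemma RC_c [Finite K] (k : Co K) (h7 : k.c7 = 0) (h8 : k.c8 = 0) (h9 : k.c9 = 0)
    (h10 : k.c10 = 0)
    (hN : ∀ y z : K, k.q4 * y ^ 2 + k.q5 * y * z + k.q6 * z ^ 2 = 0 → y = 0 ∧ z = 0) :
    RC K k := by
  have hlin : ¬ (2 * k.q4 = 0 ∧ k.q5 = 0) := by
    rintro ⟨h4, h5⟩
    have hq4 : k.q4 ≠ 0 := by
      intro h
      have := (hN 1 0 (by rw [h]; ring)).1
      exact one_ne_zero this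
    have h2 : (2 : K) = 0 := (mul_eq_zero.mp h4).resolve_right hq4
    obtain ⟨a, ha⟩ := exists_sq K h2 k.q4
    obtain ⟨b, hb⟩ := exists_sq K h2 k.q6
    have := (hN b a (by
      rw [h5, ← ha, ← hb]
      linear_combination (a ^ 2 * b ^ 2) * h2)).2
    apply hq4
    rw [← ha, this]
    ring
  obtain ⟨u1, u2, hu⟩ : ∃ u1 u2 : K, (k.trans u1 u2).q2 ≠ 0 ∨ (k.trans u1 u2).q3 ≠ 0 := by
    by_cases h : k.q2 = 0 ∧ k.q3 = 0
    · refine ⟨1, 0, ?_⟩
      by_contra hcon
      rw [not_or, not_not, not_not] at hcon
      apply hlin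
      have h1 : k.q2 + 2 * k.q4 * 1 + k.q5 * 0 = 0 := hcon.1
      have h2 : k.q3 + k.q5 * 1 + 2 * k.q6 * 0 = 0 := hcon.2
      rw [h.1] at h1
      rw [h.2] at h2
      constructor
      · linear_combination h1
      · linear_combination h2
    · refine ⟨0, 0, ?_⟩
      by_contra hcon
      rw [not_or, not_not, not_not] at hcon
      apply h
      have h1 : k.q2 + 2 * k.q4 * 0 + k.q5 * 0 = 0 := hcon.1
      have h2 : k.q3 + k.q5 * 0 + 2 * k.q6 * 0 = 0 := hcon.2
      constructor
      · linear_combination h1
      · linear_combination h2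
  refine RC_of_trans k u1 u2 ?_
  rcases hu with hu | hu
  · exact RC_c_core (k.trans u1 u2) h7 h8 h9 h10 hu
  · exact RC_of_swap _ (RC_c_core (k.trans u1 u2).swap h10 h9 h8 h7 hu)

/-- The quadratic part does not vanish on the tangent plane. -/
lemma RC_N [Finite K] (k : Co K) (hne : ¬ (k.q4 = 0 ∧ k.q5 = 0 ∧ k.q6 = 0)) : RC K k := by
  by_cases h4 : k.q4 = 0
  · by_cases h7 : k.c7 = 0
    · exact RC_line k 1 0 (by simp) (by rw [h4]; ring) (by rw [h7]; ring)
    · exact RC_tangent2 k h4 h7 (fun h => hne ⟨h4, h.1, h.2⟩)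
  · obtain ⟨ρ, hρ⟩ := exists_root_quad K k.q4 k.q5 k.q6 h4
    by_cases hC : algebraMap K _ k.c7 * ρ ^ 3 + algebraMap K _ k.c8 * ρ ^ 2
        + algebraMap K _ k.c9 * ρ + algebraMap K (AlgebraicClosure K) k.c10 = 0
    · by_cases hK : ∃ r : K, algebraMap K _ r = ρ
      · obtain ⟨r, rfl⟩ := hK
        refine RC_line k r 1 (by simp) ?_ ?_
        · apply (algebraMap K (AlgebraicClosure K)).injective
          simp only [map_add, map_mul, map_pow, map_one, map_zero, one_pow, mul_one]
          exact hρ
        · apply (algebraMap K (AlgebraicClosure K)).injective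
          simp only [map_add, map_mul, map_pow, map_one, map_zero, one_pow, mul_one]
          exact hC
      · set m1 : K := k.c7 / k.q4 with hm1
        set m2 : K := (k.c8 - k.q5 * m1) / k.q4 with hm2
        have e7 : k.c7 = k.q4 * m1 := by rw [hm1]; field_simp
        have e8 : k.c8 = k.q5 * m1 + k.q4 * m2 := by rw [hm2]; field_simp; ring
        have e9 : k.c9 - k.q6 * m1 - k.q5 * m2 = 0 ∧ k.c10 - k.q6 * m2 = 0 := by
          have key : algebraMap K (AlgebraicClosure K) (k.c9 - k.q6 * m1 - k.q5 * m2) * ρ
              + algebraMap K (AlgebraicClosure K) (k.c10 - k.q6 * m2) = 0 := by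
            have e7' := congrArg (algebraMap K (AlgebraicClosure K)) e7
            have e8' := congrArg (algebraMap K (AlgebraicClosure K)) e8
            simp only [map_add, map_mul] at e7' e8'
            simp only [map_sub, map_mul]
            linear_combination hC - (algebraMap K _ m1 * ρ + algebraMap K _ m2) * hρ
              - ρ ^ 3 * e7' - ρ ^ 2 * e8'
          by_cases h : k.c9 - k.q6 * m1 - k.q5 * m2 = 0
          · refine ⟨h, ?_⟩
            rw [h, map_zero, zero_mul, zero_add] at key
            exact (map_eq_zero _).mp key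
          · exfalso
            apply hK
            refine ⟨-(k.c10 - k.q6 * m2) / (k.c9 - k.q6 * m1 - k.q5 * m2), ?_⟩
            rw [map_div₀, map_neg, div_eq_iff ((_root_.map_ne_zero _).mpr h)]
            linear_combination -key
        refine RC_of_shiftW k (-m1) (-m2) (RC_c _ ?_ ?_ ?_ ?_ ?_)
        · show k.c7 + k.q4 * (-m1) = 0
          rw [e7]; ring
        · show k.c8 + k.q5 * (-m1) + k.q4 * (-m2) = 0
          rw [e8]; ring
        · show k.c9 + k.q6 * (-m1) + k.q5 * (-m2) = 0
          linear_combination e9.1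
        · show k.c10 + k.q6 * (-m2) = 0
          linear_combination e9.2
        · show ∀ y z : K, k.q4 * y ^ 2 + k.q5 * y * z + k.q6 * z ^ 2 = 0 → y = 0 ∧ z = 0
          intro y z hyz
          by_cases hz : z = 0
          · rw [hz] at hyz
            refine ⟨?_, hz⟩
            have : k.q4 * y ^ 2 = 0 := by linear_combination hyz
            exact (pow_eq_zero_iff two_ne_zero).mp ((mul_eq_zero.mp this).resolve_left h4)
          · exfalso
            apply hK
            have hr : k.q4 * (y / z) ^ 2 + k.q5 * (y / z) + k.q6 = 0 := by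
              field_simp
              linear_combination hyz
            have hr' := congrArg (algebraMap K (AlgebraicClosure K)) hr
            simp only [map_add, map_mul, map_pow, map_zero] at hr'
            have h5 : (algebraMap K (AlgebraicClosure K) (y / z) - ρ)
                * (algebraMap K _ k.q4 * (algebraMap K _ (y / z) + ρ) + algebraMap K _ k.q5)
                = 0 := by
              linear_combination hr' - hρ
            rcases mul_eq_zero.mp h5 with h6 | h6
            · exact ⟨y / z, sub_eq_zero.mp h6⟩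
            · refine ⟨-k.q5 / k.q4 - y / z, ?_⟩
              rw [map_sub, map_div₀ _ (-k.q5), map_neg]
              have h4' : algebraMap K (AlgebraicClosure K) k.q4 ≠ 0 :=
                (_root_.map_ne_zero _).mpr h4
              field_simp
              linear_combination -h6
    · exact RC_tangent1 k ρ hρ hC hne

end Pool.Agent.Q61.CS
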