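import Pool.Agent.Q61.CS.CaseD
import Pool.Agent.Q61.CS.CaseN

set_option autoImplicit false
set_option linter.unusedSimpArgs false

namespace Pool.Agent.Q61.CS

open Polynomial

variable {K : Type*} [Field K]

/-- Case (d), the nodal cubic is defined over the quadratic extension. -/
lemma RC_d3 (k : Co K) (h2 : k.q2 = 0) (h3 : k.q3 = 0) (h4 : k.q4 = 0) (h5 : k.q5 = 0)
    (h6 : k.q6 = 0) (hC : ∀ s t : K, dM k s t = 0 → s = 0 ∧ t = 0)
    (σ : AlgebraicClosure K →+* AlgebraicClosure K)
    (hσ : ∀ a : K, σ (algebraMap K _ a) = algebraMap K _ a)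
    (hfix : ∀ x, σ x = x → ∃ a : K, algebraMap K (AlgebraicClosure K) a = x)
    (l : AlgebraicClosure K) (hl : l ^ 2 + algebraMap K _ k.q1 * l + algebraMap K _ k.c1 = 0)
    (hlK : σ l ≠ l) (hll : σ (σ l) = l) (hsum : l + σ l = -algebraMap K _ k.q1)
    (hDv : ∀ u1 u2 : K, dD (k.trans u1 u2) ≠ 0) (p1 p2 : K) (hQp : dQ k (dD k) p1 p2 ≠ 0) :
    RC K k := by
  obtain ⟨p1', p2', hdet⟩ : ∃ p1' p2' : K, p1 * p2' - p1' * p2 ≠ 0 := by
    by_cases h : p1 = 0
    · refine ⟨1, 0, ?_⟩
      intro h'
      apply hQp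
      have : p2 = 0 := by linear_combination -h'
      unfold dQ
      rw [h, this]
      ring
    · exact ⟨0, 1, by simpa using h⟩
  have hMp : dM k p1 p2 ≠ 0 := by
    intro h
    obtain ⟨e1, e2⟩ := hC _ _ h
    apply hQp
    unfold dQ
    rw [e1, e2]
    ring
  set ι := algebraMap K (AlgebraicClosure K) with hι
  set D := dD k with hDdef
  set δ := 2 * l + ι k.q1 with hδ
  have hD0 : ι D = δ ^ 2 := by
    rw [hDdef, hδ, dD, map_sub, map_mul, map_pow, map_ofNat]
    linear_combination -4 * hl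
  have hδ' : δ = l - σ l := by
    rw [hδ]
    linear_combination hsum
  have hDne : ι D ≠ 0 := by
    rw [hD0, hδ']
    exact pow_ne_zero _ (fun h => hlK (sub_eq_zero.mp h).symm)
  have hD1 : D ≠ 0 := by
    intro h
    rw [h, map_zero] at hDne
    exact hDne rfl
  have hσδ : σ δ = -δ := by
    rw [hδ', map_sub, hll]
    ring
  set kk := (k.map ι).map (C : AlgebraicClosure K →+* (AlgebraicClosure K)[X]) with hkk
  have hkkσ : kk.map (mapRingHom σ) = kk := by
    rw [hkk, Co_map_map]
    have : (mapRingHom σ).comp (C.comp ι) = C.comp ι := by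
      refine RingHom.ext fun a => ?_
      simp only [RingHom.comp_apply, coe_mapRingHom, map_C, hσ]
    rw [Co_map_map, Co_map_map]
    rw [show ((mapRingHom σ).comp C).comp ι = (mapRingHom σ).comp (C.comp ι) from rfl, this]
  have hkk0 : kk.map (evalRingHom (0 : AlgebraicClosure K)) = k.map ι := by
    rw [hkk, Co_map_map, Co_map_map]
    congr 1
    ext a
    simp
  have f2 : kk.q2 = 0 := by simp [hkk, Co.map, h2]
  have f3 : kk.q3 = 0 := by simp [hkk, Co.map, h3]
  have f4 : kk.q4 = 0 := by simp [hkk, Co.map, h4]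
  have f5 : kk.q5 = 0 := by simp [hkk, Co.map, h5]
  have f6 : kk.q6 = 0 := by simp [hkk, Co.map, h6]
  have hlC : (C l : (AlgebraicClosure K)[X]) ^ 2 + kk.q1 * C l + kk.c1 = 0 := by
    have := congrArg (C : AlgebraicClosure K → (AlgebraicClosure K)[X]) hl
    simpa only [map_add, map_mul, map_pow, map_zero, Co.map, hkk] using this
  have hδC : (C δ : (AlgebraicClosure K)[X]) = 2 * C l + kk.q1 := by
    simp only [hδ, map_add, map_mul, map_ofNat, Co.map, hkk]
  have hDC : (C (ι D) : (AlgebraicClosure K)[X]) = C δ ^ 2 := by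
    rw [← C_pow, hD0]
  set s : (AlgebraicClosure K)[X] := C (ι p1) + C (l * ι p1') * X with hs
  set t : (AlgebraicClosure K)[X] := C (ι p2) + C (l * ι p2') * X with ht
  set s' : (AlgebraicClosure K)[X] := C (ι p1) + C (σ l * ι p1') * X with hs'
  set t' : (AlgebraicClosure K)[X] := C (ι p2) + C (σ l * ι p2') * X with ht'
  have ss : s.map σ = s' := by
    simp only [hs, hs', Polynomial.map_add, Polynomial.map_mul, map_C, map_X, hσ, map_mul]
  have tt : t.map σ = t' := by
    simp only [ht, ht', Polynomial.map_add, Polynomial.map_mul, map_C, map_X, hσ, map_mul]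
  have ss' : s'.map σ = s := by
    simp only [hs, hs', Polynomial.map_add, Polynomial.map_mul, map_C, map_X, hσ, map_mul, hll]
  have tt' : t'.map σ = t := by
    simp only [ht, ht', Polynomial.map_add, Polynomial.map_mul, map_C, map_X, hσ, map_mul, hll]
  have es : s.eval 0 = ι p1 := by simp [hs]
  have et : t.eval 0 = ι p2 := by simp [ht]
  have ds : s.natDegree ≤ 1 := by
    rw [hs]
    compute_degree
  have dt : t.natDegree ≤ 1 := by
    rw [ht]
    compute_degree
  have hN := NF_d kk f2 f3 f4 f5 f6 (C l) (C δ) (C (ι D)) s t hlC hδC hDC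
  -- conjugates
  have mM : ∀ a b : (AlgebraicClosure K)[X],
      (dM kk a b).map σ = dM kk (a.map σ) (b.map σ) := by
    intro a b
    have := dM_map (mapRingHom σ) kk a b
    rw [hkkσ] at this
    exact this
  have mE : ∀ a b : (AlgebraicClosure K)[X],
      (dE kk a b).map σ = dE kk (a.map σ) (b.map σ) := by
    intro a b
    have := dE_map (mapRingHom σ) kk a b
    rw [hkkσ] at this
    exact this
  have mQ : ∀ a b : (AlgebraicClosure K)[X],
      (dQ kk (C (ι D)) a b).map σ = dQ kk (C (ι D)) (a.map σ) (b.map σ) := by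
    intro a b
    have := dQ_map (mapRingHom σ) kk (C (ι D)) a b
    rw [hkkσ] at this
    simp only [coe_mapRingHom, map_C, hσ] at this
    exact this
  -- values at zero
  have vM : (dM kk s t).eval 0 = ι (dM k p1 p2) := by
    have := dM_map (evalRingHom (0 : AlgebraicClosure K)) kk s t
    rw [hkk0] at this
    simp only [coe_evalRingHom, es, et] at this
    rw [this, dM_map]
  have vE : (dE kk s t).eval 0 = ι (dE k p1 p2) := by
    have := dE_map (evalRingHom (0 : AlgebraicClosure K)) kk s t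
    rw [hkk0] at this
    simp only [coe_evalRingHom, es, et] at this
    rw [this, dE_map]
  have vQ : (dQ kk (C (ι D)) s t).eval 0 = ι (dQ k D p1 p2) := by
    have := dQ_map (evalRingHom (0 : AlgebraicClosure K)) kk (C (ι D)) s t
    rw [hkk0] at this
    simp only [coe_evalRingHom, es, et, eval_C] at this
    rw [this, dQ_map]
  have hιM : ι (dM k p1 p2) ≠ 0 := (_root_.map_ne_zero _).mpr hMp
  have hιQ : ι (dQ k D p1 p2) ≠ 0 := (_root_.map_ne_zero _).mpr hQp
  set v1 : K := -(p1 * dQ k D p1 p2) / (D * dM k p1 p2) with hv1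
  set v2 : K := -(p2 * dQ k D p1 p2) / (D * dM k p1 p2) with hv2
  set ω : K := dE k p1 p2 * dQ k D p1 p2 / (D ^ 2 * dM k p1 p2) with hω
  set w : AlgebraicClosure K := l + ι ω * δ with hw
  have e0 : (C (ι D) ^ 2 * dM kk s t).eval 0 = ι (D ^ 2 * dM k p1 p2) := by
    rw [eval_mul, vM, eval_pow, eval_C, map_mul, map_pow]
  have hκ : ι (D ^ 2 * dM k p1 p2) ≠ 0 :=
    (_root_.map_ne_zero _).mpr (mul_ne_zero (pow_ne_zero _ hD1) hMp)
  have e1 : (-(C (ι D) * s * dQ kk (C (ι D)) s t)).eval 0 = ι (D ^ 2 * dM k p1 p2) * ι v1 := by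
    rw [eval_neg, eval_mul, eval_mul, vQ, es, eval_C, ← map_mul, ← map_mul, ← map_mul, ← map_neg]
    congr 1
    rw [hv1]
    field_simp
  have e2 : (-(C (ι D) * t * dQ kk (C (ι D)) s t)).eval 0 = ι (D ^ 2 * dM k p1 p2) * ι v2 := by
    rw [eval_neg, eval_mul, eval_mul, vQ, et, eval_C, ← map_mul, ← map_mul, ← map_mul, ← map_neg]
    congr 1
    rw [hv2]
    field_simp
  have e3 : (C l * (C (ι D) ^ 2 * dM kk s t) + dE kk s t * C δ * dQ kk (C (ι D)) s t).eval 0
      = ι (D ^ 2 * dM k p1 p2) * w := by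
    rw [eval_add, eval_mul, e0, eval_C, eval_mul, eval_mul, vE, vQ, eval_C, hw]
    have : ι (dE k p1 p2) * ι (dQ k D p1 p2) = ι (D ^ 2 * dM k p1 p2) * ι ω := by
      rw [← map_mul, ← map_mul]
      congr 1
      rw [hω]
      field_simp
    linear_combination δ * this
  have hww : σ w ≠ w := by
    intro h
    have hNw : NF (k.map ι) 1 (ι v1) (ι v2) w = 0 := by
      have := NF_map (evalRingHom (0 : AlgebraicClosure K)) kk _ _ _ _ ▸
        congrArg (evalRingHom (0 : AlgebraicClosure K)) hN
      rw [map_zero, hkk0] at this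
      simp only [coe_evalRingHom] at this
      rw [e0, e1, e2, e3] at this
      have e := NF_smul (k.map ι) (ι (D ^ 2 * dM k p1 p2)) 1 (ι v1) (ι v2) w
      rw [mul_one] at e
      rw [e] at this
      exact (mul_eq_zero.mp this).resolve_left (pow_ne_zero _ hκ)
    have h2w : 2 * w + ι k.q1 = 0 := by
      have e : σ w = σ l - ι ω * δ := by
        rw [hw, map_add, map_mul, hσ, hσδ]
        ring
      have e' : w = l + ι ω * δ := hw
      linear_combination e' + e + hsum - h
    apply hDv v1 v2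
    apply (algebraMap K (AlgebraicClosure K)).injective
    rw [map_zero, ← hι]
    simp only [NF, Co.map, h2, h3, h4, h5, h6, map_zero] at hNw
    simp only [dD, Co.trans, h2, h3, h4, h5, h6, map_sub, map_add, map_mul, map_pow, map_ofNat,
      map_zero]
    linear_combination (2 * w + ι k.q1) * h2w - 4 * hNw
  refine RC_descent k σ hσ hfix _ _ _ _ hN (nd_r0 (k.map ι) (ι D) ds dt)
    (nd_r1 (k.map ι) (ι D) ds dt) (nd_r2 (k.map ι) (ι D) ds dt)
    (nd_r3 (k.map ι) (ι D) l δ ds dt) ?_ ?_ ?_ ?_ _ w v1 v2 hκ e0 e1 e2 e3 hww ?_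
  · simp only [Polynomial.map_mul, Polynomial.map_pow, map_C, hσ, mM, ss, tt, ss', tt']
  · simp only [Polynomial.map_mul, Polynomial.map_neg, map_C, hσ, mQ, ss, tt, ss', tt']
  · simp only [Polynomial.map_mul, Polynomial.map_neg, map_C, hσ, mQ, ss, tt, ss', tt']
  · simp only [Polynomial.map_mul, Polynomial.map_pow, Polynomial.map_add, map_C, hσ, mQ, mM, mE,
      ss, tt, ss', tt', hll, hσδ, map_neg, neg_neg, Polynomial.map_neg, mul_neg, neg_mul]
  · by_contra hcon
    rw [not_or, not_not, not_not] at hcon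
    obtain ⟨c1, c2⟩ := hcon
    simp only [Polynomial.map_mul, Polynomial.map_pow, Polynomial.map_neg, map_C, hσ, mQ, mM, ss,
      tt] at c1 c2
    have hCD : (C (ι D) : (AlgebraicClosure K)[X]) ≠ 0 := by
      rw [Ne, C_eq_zero]; exact hDne
    have nM : dM kk s t ≠ 0 := by
      intro h
      rw [h, eval_zero] at vM
      exact hιM vM.symm
    have nM' : dM kk s' t' ≠ 0 := by
      rw [← ss, ← tt, ← mM]
      intro h
      exact nM (by
        apply Polynomial.map_injective σ σ.injective
        rw [h, Polynomial.map_zero])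
    have nQ : dQ kk (C (ι D)) s t ≠ 0 := by
      intro h
      rw [h, eval_zero] at vQ
      exact hιQ vQ.symm
    have nQ' : dQ kk (C (ι D)) s' t' ≠ 0 := by
      rw [← ss, ← tt, ← mQ]
      intro h
      exact nQ (by
        apply Polynomial.map_injective σ σ.injective
        rw [h, Polynomial.map_zero])
    have prod : (C (ι D) ^ 6 * dM kk s t * dM kk s' t' * dQ kk (C (ι D)) s t
        * dQ kk (C (ι D)) s' t') * (s * t' - s' * t) = 0 := by
      linear_combination (C (ι D) * t * dQ kk (C (ι D)) s t * (C (ι D) ^ 2 * dM kk s' t')) * c1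
        - (C (ι D) * s * dQ kk (C (ι D)) s t * (C (ι D) ^ 2 * dM kk s' t')) * c2
    have hst := (mul_eq_zero.mp prod).resolve_left (mul_ne_zero (mul_ne_zero (mul_ne_zero
      (mul_ne_zero (pow_ne_zero _ hCD) nM) nM') nQ) nQ')
    have : s * t' - s' * t = C ((σ l - l) * ι (p1 * p2' - p1' * p2)) * X := by
      simp only [hs, ht, hs', ht', map_mul, map_sub]
      ring
    rw [this, mul_eq_zero, C_eq_zero, mul_eq_zero] at hst
    rcases hst with (h | h) | h
    · exact hlK (sub_eq_zero.mp h)
    · exact hdet ((map_eq_zero _).mp h)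
    · exact X_ne_zero h

end Pool.Agent.Q61.CS
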