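import Mathlib

/-!
Rational curves through points of cubic surfaces over finite fields: normal form and the basic
geometric constructions (tangent plane sections, third intersection points, descent).
-/

set_option autoImplicit false

namespace Pool.Agent.Q61.CS

open Polynomial

/-- Coefficients of a cubic form `x w² + w q(x,y,z) + c(x,y,z)`. -/
structure Co (A : Type*) where
  q1 : A
  q2 : A
  q3 : A
  q4 : A
  q5 : A
  q6 : A
  c1 : A
  c2 : A
  c3 : A
  c4 : A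
  c5 : A
  c6 : A
  c7 : A
  c8 : A
  c9 : A
  c10 : A

variable {A B : Type*} [CommRing A] [CommRing B]

/-- Base change of the coefficients. -/
@[simps] def Co.map (f : A →+* B) (k : Co A) : Co B where
  q1 := f k.q1
  q2 := f k.q2
  q3 := f k.q3
  q4 := f k.q4
  q5 := f k.q5
  q6 := f k.q6
  c1 := f k.c1
  c2 := f k.c2
  c3 := f k.c3
  c4 := f k.c4
  c5 := f k.c5
  c6 := f k.c6
  c7 := f k.c7
  c8 := f k.c8
  c9 := f k.c9
  c10 := f k.c10

/-- The cubic form. -/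
def NF (k : Co A) (x y z w : A) : A :=
  x * w ^ 2 + w * (k.q1 * x ^ 2 + k.q2 * x * y + k.q3 * x * z + k.q4 * y ^ 2 + k.q5 * y * z
    + k.q6 * z ^ 2)
  + (k.c1 * x ^ 3 + k.c2 * x ^ 2 * y + k.c3 * x ^ 2 * z + k.c4 * x * y ^ 2 + k.c5 * x * y * z
    + k.c6 * x * z ^ 2 + k.c7 * y ^ 3 + k.c8 * y ^ 2 * z + k.c9 * y * z ^ 2 + k.c10 * z ^ 3)

/-- The polar form: the derivative of `NF k` at `(x,y,z,w)` in the direction `(x',y',z',w')`. -/
def PF (k : Co A) (x y z w x' y' z' w' : A) : A :=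
  (w ^ 2 + w * (2 * k.q1 * x + k.q2 * y + k.q3 * z)
    + (3 * k.c1 * x ^ 2 + 2 * k.c2 * x * y + 2 * k.c3 * x * z + k.c4 * y ^ 2 + k.c5 * y * z
    + k.c6 * z ^ 2)) * x'
  + (w * (k.q2 * x + 2 * k.q4 * y + k.q5 * z)
    + (k.c2 * x ^ 2 + 2 * k.c4 * x * y + k.c5 * x * z + 3 * k.c7 * y ^ 2 + 2 * k.c8 * y * z
    + k.c9 * z ^ 2)) * y'
  + (w * (k.q3 * x + k.q5 * y + 2 * k.q6 * z)
    + (k.c3 * x ^ 2 + k.c5 * x * y + 2 * k.c6 * x * z + k.c8 * y ^ 2 + 2 * k.c9 * y * z
    + 3 * k.c10 * z ^ 2)) * z'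
  + (2 * x * w + (k.q1 * x ^ 2 + k.q2 * x * y + k.q3 * x * z + k.q4 * y ^ 2 + k.q5 * y * z
    + k.q6 * z ^ 2)) * w'

lemma NF_comb (k : Co A) (α β x y z w x' y' z' w' : A) :
    NF k (α * x + β * x') (α * y + β * y') (α * z + β * z') (α * w + β * w')
      = α ^ 3 * NF k x y z w + α ^ 2 * β * PF k x y z w x' y' z' w'
        + α * β ^ 2 * PF k x' y' z' w' x y z w + β ^ 3 * NF k x' y' z' w' := by
  simp only [NF, PF]
  ring

/-- The third intersection point of a line with the cubic surface. -/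
lemma NF_third (k : Co A) (x y z w x' y' z' w' : A) (h : NF k x y z w = 0)
    (h' : NF k x' y' z' w' = 0) :
    NF k (PF k x y z w x' y' z' w' * x' - PF k x' y' z' w' x y z w * x)
      (PF k x y z w x' y' z' w' * y' - PF k x' y' z' w' x y z w * y)
      (PF k x y z w x' y' z' w' * z' - PF k x' y' z' w' x y z w * z)
      (PF k x y z w x' y' z' w' * w' - PF k x' y' z' w' x y z w * w) = 0 := by
  have := NF_comb k (-PF k x' y' z' w' x y z w) (PF k x y z w x' y' z' w') x y z w x' y' z' w'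
  rw [h, h'] at this
  have e : ∀ a b : A, PF k x y z w x' y' z' w' * a - PF k x' y' z' w' x y z w * b
      = (-PF k x' y' z' w' x y z w) * b + PF k x y z w x' y' z' w' * a := by
    intro a b; ring
  rw [e, e, e, e, this]
  ring

lemma NF_map (f : A →+* B) (k : Co A) (x y z w : A) :
    f (NF k x y z w) = NF (k.map f) (f x) (f y) (f z) (f w) := by
  simp only [NF, Co.map_q1, Co.map_q2, Co.map_q3, Co.map_q4, Co.map_q5, Co.map_q6, Co.map_c1,
    Co.map_c2, Co.map_c3, Co.map_c4, Co.map_c5, Co.map_c6, Co.map_c7, Co.map_c8, Co.map_c9,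
    Co.map_c10, map_add, map_mul, map_pow]

lemma PF_map (f : A →+* B) (k : Co A) (x y z w x' y' z' w' : A) :
    f (PF k x y z w x' y' z' w')
      = PF (k.map f) (f x) (f y) (f z) (f w) (f x') (f y') (f z') (f w') := by
  simp only [PF, Co.map_q1, Co.map_q2, Co.map_q3, Co.map_q4, Co.map_q5, Co.map_q6, Co.map_c1,
    Co.map_c2, Co.map_c3, Co.map_c4, Co.map_c5, Co.map_c6, Co.map_c7, Co.map_c8, Co.map_c9,
    Co.map_c10, map_add, map_mul, map_pow, map_ofNat]

/-- There is a parametrised rational curve on the cubic surface through the point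
`(0 : 0 : 0 : 1)`. -/
def RC (K : Type*) [Field K] (k : Co K) : Prop :=
  ∃ a b c d : K[X], NF (k.map C) a b c d = 0 ∧
    (∃ t : AlgebraicClosure K, aeval t a = 0 ∧ aeval t b = 0 ∧ aeval t c = 0 ∧ aeval t d ≠ 0) ∧
    ¬ (a = 0 ∧ b = 0 ∧ c = 0) ∧
    a.natDegree ≤ 12 ∧ b.natDegree ≤ 12 ∧ c.natDegree ≤ 12 ∧ d.natDegree ≤ 12

end Pool.Agent.Q61.CS
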