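import Pool.Agent.Q61.CS.Core

set_option autoImplicit false

namespace Pool.Agent.Q61.CS

open MvPolynomial

lemma tup_eq : List.Nat.antidiagonalTuple 4 3 =
  [![0,0,0,3], ![0,0,1,2], ![0,0,2,1], ![0,0,3,0], ![0,1,0,2], ![0,1,1,1], ![0,1,2,0],
   ![0,2,0,1], ![0,2,1,0], ![0,3,0,0], ![1,0,0,2], ![1,0,1,1], ![1,0,2,0], ![1,1,0,1], ![1,1,1,0],
   ![1,2,0,0], ![2,0,0,1], ![2,0,1,0], ![2,1,0,0], ![3,0,0,0]] := by
  decide

variable {K : Type*} [Field K]

/-- The coefficient of a cubic form at a given exponent vector. -/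
noncomputable def cf (G : MvPolynomial (Fin 4) K) (t : Fin 4 → ℕ) : K :=
  coeff (Finsupp.equivFunOnFinite.symm t) G

lemma expand_sum {A : Type*} [CommRing A] [Algebra K A] (G : MvPolynomial (Fin 4) K)
    (hG : G.IsHomogeneous 3) (a : Fin 4 → A) :
    aeval a G = ((List.Nat.antidiagonalTuple 4 3).map
      (fun t => algebraMap K A (cf G t) * ∏ i, a i ^ t i)).sum := by
  classical
  have h1 : aeval a G = ∑ t ∈ Finset.Nat.antidiagonalTuple 4 3,
      algebraMap K A (cf G t) * ∏ i, a i ^ t i := by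
    rw [aeval_def, eval₂_eq']
    refine Eq.trans ?_ (Finset.sum_map (Finset.Nat.antidiagonalTuple 4 3)
      (Finsupp.equivFunOnFinite.symm.toEmbedding : (Fin 4 → ℕ) ↪ (Fin 4 →₀ ℕ))
      (fun d : Fin 4 →₀ ℕ => algebraMap K A (coeff d G) * ∏ i, a i ^ d i))
    refine Finset.sum_subset ?_ ?_
    · intro d hd
      rw [Finset.mem_map]
      refine ⟨Finsupp.equivFunOnFinite d, ?_, by simp⟩
      rw [Finset.Nat.mem_antidiagonalTuple]
      have := hG (mem_support_iff.mp hd)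
      rw [Finsupp.weight_apply, Finsupp.sum_fintype _ _ (by simp)] at this
      simpa using this
    · intro d _ hd
      rw [notMem_support_iff.mp hd, map_zero, zero_mul]
  rw [h1]
  rfl

/-- The explicit form of a cubic form in four variables. -/
lemma expand_NF (G : MvPolynomial (Fin 4) K) (hG : G.IsHomogeneous 3) :
    ∃ (k : Co K) (e0 e1 e2 e3 : K), ∀ a : Fin 4 → Polynomial K,
      aeval a G = NF (k.map Polynomial.C) (a 0) (a 1) (a 2) (a 3)
        + (Polynomial.C e0 - 1) * a 0 * a 3 ^ 2 + Polynomial.C e1 * a 1 * a 3 ^ 2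
        + Polynomial.C e2 * a 2 * a 3 ^ 2 + Polynomial.C e3 * a 3 ^ 3 := by
  refine ⟨⟨cf G ![2,0,0,1], cf G ![1,1,0,1], cf G ![1,0,1,1], cf G ![0,2,0,1], cf G ![0,1,1,1],
    cf G ![0,0,2,1], cf G ![3,0,0,0], cf G ![2,1,0,0], cf G ![2,0,1,0], cf G ![1,2,0,0],
    cf G ![1,1,1,0], cf G ![1,0,2,0], cf G ![0,3,0,0], cf G ![0,2,1,0], cf G ![0,1,2,0],
    cf G ![0,0,3,0]⟩, cf G ![1,0,0,2], cf G ![0,1,0,2], cf G ![0,0,1,2], cf G ![0,0,0,3], ?_⟩
  intro a
  rw [expand_sum G hG a, tup_eq]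
  simp only [List.map_cons, List.map_nil, List.sum_cons, List.sum_nil, Fin.prod_univ_four,
    Polynomial.algebraMap_eq, NF, Co.map]
  simp only [Matrix.cons_val_zero, Matrix.cons_val_one, Matrix.cons_val_two, Matrix.cons_val_three,
    Matrix.head_cons, Matrix.tail_cons, pow_zero, pow_one, mul_one, one_mul]
  ring

end Pool.Agent.Q61.CS
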