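import Pool.Agent.Q61.CS.Reduce2

set_option autoImplicit false
set_option linter.unusedSimpArgs false

namespace Pool.Agent.Q61.CS

open MvPolynomial

variable {K : Type*} [Field K]

lemma exists_gcd (y : Fin 4 → Polynomial K) :
    ∃ (g : Polynomial K) (b : Fin 4 → Polynomial K), (∀ i, y i = g * b i) ∧
      ∀ p : Polynomial K, (∀ i, p ∣ b i) → IsUnit p := by
  classical
  let _ : NormalizedGCDMonoid (Polynomial K) :=
    UniqueFactorizationMonoid.toNormalizedGCDMonoid (Polynomial K)
  obtain ⟨b, hb, h1⟩ := Finset.extract_gcd y (Finset.univ_nonempty (α := Fin 4))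
  refine ⟨Finset.univ.gcd y, b, fun i => hb i (Finset.mem_univ i), fun p hp => ?_⟩
  rw [isUnit_iff_dvd_one, ← h1]
  exact Finset.dvd_gcd fun i _ => hp i

lemma aeval_homogenize_zero (p : Polynomial K) (d : ℕ) (u : AlgebraicClosure K) :
    aeval ![u, 0] (p.homogenize d) = algebraMap K _ (p.coeff d) * u ^ d := by
  classical
  unfold Polynomial.homogenize
  rw [map_sum, Finset.sum_eq_single (d, 0)]
  · rw [aeval_monomial]
    simp [Finsupp.update_eq_add_single, Finsupp.prod_fintype, Fin.prod_univ_two]
  · rintro ⟨i, j⟩ hij hne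
    have hj : j ≠ 0 := by
      rintro rfl
      apply hne
      simpa using hij
    rw [aeval_monomial]
    simp [Finsupp.update_eq_add_single, Finsupp.prod_fintype, Fin.prod_univ_two, hj]
  · intro h
    simp at h

lemma aeval_homogenize_ne (p : Polynomial K) (d : ℕ) (hd : p.natDegree ≤ d)
    (v : Fin 2 → AlgebraicClosure K) (hv : v 1 ≠ 0) :
    aeval v (p.homogenize d) = Polynomial.aeval (v 0 / v 1) p * v 1 ^ d := by
  have h := Polynomial.eval_homogenize (p := p.map (algebraMap K (AlgebraicClosure K))) (n := d)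
    ((Polynomial.natDegree_map_le).trans hd) v hv
  rw [Polynomial.homogenize_map, eval_map] at h
  rw [aeval_def, h, Polynomial.eval_map, Polynomial.aeval_def]

/-- Homogeneity of a cubic form under a polynomial factor. -/
lemma aeval_smul (F : MvPolynomial (Fin 4) K) (hF : F.IsHomogeneous 3) (g : Polynomial K)
    (b : Fin 4 → Polynomial K) : aeval (fun i => g * b i) F = g ^ 3 * aeval b F := by
  obtain ⟨k, e0, e1, e2, e3, hk⟩ := expand_NF F hF
  rw [hk, hk, NF_smul]
  ring

/-- The main theorem. -/
theorem main [Finite K] (F : MvPolynomial (Fin 4) K) (hF : F.IsHomogeneous 3) (x : Fin 4 → K)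
    (hx : x ≠ 0) (hFx : eval x F = 0) (hsm : ∃ i, eval x (pderiv i F) ≠ 0) :
    ∃ (d : ℕ) (f : Fin 4 → MvPolynomial (Fin 2) K), 0 < d ∧ d ≤ 12 ∧
      (∀ i, (f i).IsHomogeneous d) ∧
      (∀ p : Fin 2 → AlgebraicClosure K, p ≠ 0 → ∃ i, aeval p (f i) ≠ 0) ∧
      aeval f F = 0 ∧
      ∃ (p : Fin 2 → AlgebraicClosure K) (c : AlgebraicClosure K), p ≠ 0 ∧ c ≠ 0 ∧
        ∀ i, aeval p (f i) = c * algebraMap K (AlgebraicClosure K) (x i) := by
  classical
  obtain ⟨y, hy, dy, ⟨t, c, hc, htc⟩, hprop⟩ := reduce F hF x hx hFx hsm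
  obtain ⟨g, b, hgb, hcop⟩ := exists_gcd y
  obtain ⟨j0, hj0⟩ : ∃ j, x j ≠ 0 := by
    by_contra hcon
    push Not at hcon
    exact hx (funext hcon)
  have hιx : algebraMap K (AlgebraicClosure K) (x j0) ≠ 0 := (_root_.map_ne_zero _).mpr hj0
  have hgt : Polynomial.aeval t g ≠ 0 := by
    intro h
    have h1 := htc j0
    rw [hgb, map_mul, h, zero_mul] at h1
    exact mul_ne_zero hc hιx h1.symm
  have hg0 : g ≠ 0 := by
    rintro rfl
    simp at hgt
  -- no common root
  have hnocommon : ∀ τ : AlgebraicClosure K, ¬ ∀ i, Polynomial.aeval τ (b i) = 0 := by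
    intro τ hτ
    have hu := hcop (minpoly K τ) fun i => minpoly.dvd K τ (hτ i)
    exact (minpoly.not_isUnit K τ) hu
  set d : ℕ := Finset.univ.sup fun i => (b i).natDegree with hd
  have hdle : ∀ i, (b i).natDegree ≤ d := fun i =>
    Finset.le_sup (f := fun i => (b i).natDegree) (Finset.mem_univ i)
  obtain ⟨i1, -, hi1⟩ := Finset.exists_mem_eq_sup Finset.univ (Finset.univ_nonempty (α := Fin 4))
    (fun i => (b i).natDegree)
  have hbt : ∀ i, Polynomial.aeval t (b i)
      = (c / Polynomial.aeval t g) * algebraMap K (AlgebraicClosure K) (x i) := by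
    intro i
    have h1 := htc i
    rw [hgb, map_mul] at h1
    field_simp
    linear_combination h1
  have hdpos : 0 < d := by
    rw [Nat.pos_iff_ne_zero]
    intro h0
    have hconst : ∀ i, b i = Polynomial.C ((b i).coeff 0) := fun i =>
      Polynomial.eq_C_of_natDegree_eq_zero (Nat.le_zero.mp (h0 ▸ hdle i))
    set γ : K := (b j0).coeff 0 / x j0 with hγ
    have hγ' : algebraMap K (AlgebraicClosure K) γ = c / Polynomial.aeval t g := by
      have h1 := hbt j0
      rw [hconst j0, Polynomial.aeval_C] at h1
      rw [hγ, map_div₀, h1]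
      field_simp
    apply hprop (g * Polynomial.C γ)
    intro i
    rw [hgb i, mul_assoc]
    congr 1
    rw [hconst i, ← Polynomial.C_mul]
    congr 1
    apply (algebraMap K (AlgebraicClosure K)).injective
    have h1 := hbt i
    rw [hconst i, Polynomial.aeval_C] at h1
    rw [h1, map_mul, hγ']
  have hd12 : d ≤ 12 := by
    refine Finset.sup_le fun i _ => ?_
    by_cases hbi : b i = 0
    · simp [hbi]
    · have h1 := dy i
      rw [hgb i, Polynomial.natDegree_mul hg0 hbi] at h1
      omega
  refine ⟨d, fun i => (b i).homogenize d, hdpos, hd12,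
    fun i => Polynomial.isHomogeneous_homogenize (b i), ?_, ?_, ?_⟩
  · intro p hp
    by_contra hcon
    push Not at hcon
    by_cases h1 : p 1 = 0
    · have h0 : p 0 ≠ 0 := by
        intro h0
        apply hp
        funext j
        fin_cases j
        · exact h0
        · exact h1
      have hpe : p = ![p 0, 0] := by
        funext j
        fin_cases j
        · rfl
        · exact h1
      have h2 := hcon i1
      rw [hpe, aeval_homogenize_zero] at h2
      have h3 := (mul_eq_zero.mp h2).resolve_right (pow_ne_zero _ h0)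
      have h4 := (map_eq_zero _).mp h3
      have h5 : (b i1).natDegree = d := hi1.symm
      rw [← h5] at h4
      have h6 : b i1 = 0 := Polynomial.leadingCoeff_eq_zero.mp h4
      rw [h6] at h5
      simp at h5
      omega
    · apply hnocommon (p 0 / p 1)
      intro i
      have h2 := hcon i
      rw [aeval_homogenize_ne _ _ (hdle i) p h1] at h2
      exact (mul_eq_zero.mp h2).resolve_right (pow_ne_zero _ h1)
  · have hb0 : aeval b F = 0 := by
      have h1 : aeval (fun i => g * b i) F = 0 := by
        rw [← hy]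
        congr 2
        funext i
        exact (hgb i).symm
      rw [aeval_smul F hF] at h1
      exact (mul_eq_zero.mp h1).resolve_left (pow_ne_zero _ hg0)
    have hhom : (aeval (fun i => (b i).homogenize d) F).IsHomogeneous (d * 3) :=
      hF.aeval _ fun i => Polynomial.isHomogeneous_homogenize (b i)
    have h1 := Polynomial.homogenize_eq_of_isHomogeneous hhom (p := 0) (by
      rw [comp_aeval_apply, ← hb0]
      congr 2
      funext i
      exact Polynomial.aeval_homogenize_X_one (b i) (hdle i))
    rw [← h1, Polynomial.homogenize_zero]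
  · refine ⟨![t, 1], c / Polynomial.aeval t g, ?_, div_ne_zero hc hgt, ?_⟩
    · intro h
      have := congrFun h 1
      simp at this
    · intro i
      rw [← hbt i, Polynomial.aeval_homogenize_of_eq_one (hdle i) _ rfl]
      rfl

end Pool.Agent.Q61.CS
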