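import Pool.Agent.Q61.CS.Third

set_option autoImplicit false

namespace Pool.Agent.Q61.CS

open Polynomial

variable {K : Type*} [Field K]

lemma PF_smul_left {A : Type*} [CommRing A] (k : Co A) (c x y z w x' y' z' w' : A) :
    PF k (c * x) (c * y) (c * z) (c * w) x' y' z' w' = c ^ 2 * PF k x y z w x' y' z' w' := by
  unfold PF
  ring

lemma PF_smul_right {A : Type*} [CommRing A] (k : Co A) (c x y z w x' y' z' w' : A) :
    PF k x y z w (c * x') (c * y') (c * z') (c * w') = c * PF k x y z w x' y' z' w' := by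
  unfold PF
  ring

lemma Co_map_map {A B D : Type*} [CommRing A] [CommRing B] [CommRing D] (f : A →+* B)
    (g : B →+* D) (k : Co A) : (k.map f).map g = k.map (g.comp f) := rfl

/-- Joining a curve through `(1 : 0 : 0 : l)` with the second point `(1 : 0 : 0 : l')`. -/
lemma RC_third (k : Co K) (l l' : K) (hs : l + l' = -k.q1) (hp : l * l' = k.c1) (hne : l ≠ l')
    (r0 r1 r2 r3 : K[X]) (hr : NF (k.map C) r0 r1 r2 r3 = 0)
    (d0 : r0.natDegree ≤ 3) (d1 : r1.natDegree ≤ 3) (d2 : r2.natDegree ≤ 3)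
    (d3 : r3.natDegree ≤ 3) (t κ : AlgebraicClosure K) (hκ : κ ≠ 0)
    (e0 : aeval t r0 = κ) (e1 : aeval t r1 = 0) (e2 : aeval t r2 = 0)
    (e3 : aeval t r3 = κ * algebraMap K (AlgebraicClosure K) l) (hnz : ¬ (r1 = 0 ∧ r2 = 0)) :
    RC K k := by
  set P : K[X] := PF (k.map C) r0 r1 r2 r3 1 0 0 (C l') with hP
  set Q : K[X] := PF (k.map C) 1 0 0 (C l') r0 r1 r2 r3 with hQ
  have ho : NF (k.map C) 1 0 0 (C l') = 0 := by
    have : l' ^ 2 + k.q1 * l' + k.c1 = 0 := by
      linear_combination (l') * hs - hp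
    have h' := congrArg (C : K → K[X]) this
    simp only [map_add, map_mul, map_pow, map_zero] at h'
    simp only [NF, Co.map]
    linear_combination h'
  have h3 := NF_third (k.map C) r0 r1 r2 r3 1 0 0 (C l') hr ho
  rw [← hP, ← hQ] at h3
  -- values at `t`
  set ι := algebraMap K (AlgebraicClosure K) with hι
  have hs' : ι l' + ι l = -ι k.q1 := by
    rw [← map_add, add_comm, hs, map_neg]
  have hp' : ι l' * ι l = ι k.c1 := by
    rw [← map_mul, mul_comm, hp]
  have hd : ι l' - ι l ≠ 0 := by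
    rw [← map_sub]
    intro h
    exact hne (sub_eq_zero.mp ((map_eq_zero ι).mp h)).symm
  have hmap : (k.map C).map (aeval t : K[X] →ₐ[K] AlgebraicClosure K).toRingHom = k.map ι := by
    rw [Co_map_map]
    congr 1
    ext a
    simp [hι]
  have eP : aeval t P = -(κ ^ 2 * (ι l' - ι l) ^ 2) := by
    have := PF_map (aeval t : K[X] →ₐ[K] AlgebraicClosure K).toRingHom (k.map C) r0 r1 r2 r3 1 0 0
      (C l')
    rw [hmap] at this
    simp only [AlgHom.toRingHom_eq_coe, RingHom.coe_coe, map_one, map_zero, aeval_C, e0, e1, e2,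
      e3] at this
    rw [← hP, ← hι] at this
    rw [this]
    have e := PF_smul_left (k.map ι) κ 1 0 0 (ι l) 1 0 0 (ι l')
    have e' := PF_vert (k.map ι) 0 0 (ι l) (ι l') (by
      simp only [Co.map_q1, Co.map_q2, Co.map_q3, Co.map_q4, Co.map_q5, Co.map_q6]
      linear_combination hs') (by
      simp only [Co.map_c1, Co.map_c2, Co.map_c3, Co.map_c4, Co.map_c5, Co.map_c6, Co.map_c7,
        Co.map_c8, Co.map_c9, Co.map_c10]
      linear_combination hp')
    simp only [mul_one, mul_zero] at e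
    rw [e, e']
    ring
  have eQ : aeval t Q = -(κ * (ι l' - ι l) ^ 2) := by
    have := PF_map (aeval t : K[X] →ₐ[K] AlgebraicClosure K).toRingHom (k.map C) 1 0 0
      (C l') r0 r1 r2 r3
    rw [hmap] at this
    simp only [AlgHom.toRingHom_eq_coe, RingHom.coe_coe, map_one, map_zero, aeval_C, e0, e1, e2,
      e3] at this
    rw [← hQ, ← hι] at this
    rw [this]
    have e := PF_smul_right (k.map ι) κ 1 0 0 (ι l') 1 0 0 (ι l)
    have e' := PF_vert (k.map ι) 0 0 (ι l') (ι l) (by
      simp only [Co.map_q1, Co.map_q2, Co.map_q3, Co.map_q4, Co.map_q5, Co.map_q6]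
      linear_combination hs') (by
      simp only [Co.map_c1, Co.map_c2, Co.map_c3, Co.map_c4, Co.map_c5, Co.map_c6, Co.map_c7,
        Co.map_c8, Co.map_c9, Co.map_c10]
      linear_combination hp')
    simp only [mul_one, mul_zero] at e
    rw [e, e']
    ring
  have hQ0 : Q ≠ 0 := by
    intro h
    rw [h, map_zero] at eQ
    have : κ * (ι l' - ι l) ^ 2 = 0 := by linear_combination eQ
    rcases mul_eq_zero.mp this with h | h
    · exact hκ h
    · exact hd (pow_eq_zero_iff (two_ne_zero) |>.mp h)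
  have dP : P.natDegree ≤ 6 := nd_PF k d0 d1 d2 d3 (n := 0) (by simp) (by simp) (by simp) (by simp)
  have dQ : Q.natDegree ≤ 3 := by
    have := nd_PF k (m := 0) (x := 1) (y := 0) (z := 0) (w := C l') (by simp) (by simp) (by simp)
      (by simp) d0 d1 d2 d3
    simpa using this
  refine ⟨_, _, _, _, h3, ⟨t, ?_, ?_, ?_, ?_⟩, ?_, ?_, ?_, ?_, ?_⟩
  · simp only [map_sub, map_mul, eP, eQ, e0, map_one]
    ring
  · simp only [map_sub, map_mul, eP, eQ, e1, map_zero]
    ring
  · simp only [map_sub, map_mul, eP, eQ, e2, map_zero]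
    ring
  · simp only [map_sub, map_mul, eP, eQ, e3, aeval_C, ← hι]
    have : -(κ ^ 2 * (ι l' - ι l) ^ 2) * ι l' - -(κ * (ι l' - ι l) ^ 2) * (κ * ι l)
        = -(κ ^ 2 * (ι l' - ι l) ^ 3) := by ring
    rw [this, neg_ne_zero]
    exact mul_ne_zero (pow_ne_zero _ hκ) (pow_ne_zero _ hd)
  · rintro ⟨-, h1, h2⟩
    apply hnz
    constructor
    · have : Q * r1 = 0 := by linear_combination -h1
      exact (mul_eq_zero.mp this).resolve_left hQ0
    · have : Q * r2 = 0 := by linear_combination -h2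
      exact (mul_eq_zero.mp this).resolve_left hQ0
  · exact (nd_sub (m := 6) (nd_mul dP (n := 0) (by simp)) (nd_mul dQ d0)).trans (by norm_num)
  · exact (nd_sub (m := 6) (nd_mul dP (n := 0) (by simp)) (nd_mul dQ d1)).trans (by norm_num)
  · exact (nd_sub (m := 6) (nd_mul dP (n := 0) (by simp)) (nd_mul dQ d2)).trans (by norm_num)
  · exact (nd_sub (m := 6) (nd_mul dP (n := 0) (by simp)) (nd_mul dQ d3)).trans (by norm_num)

end Pool.Agent.Q61.CS
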