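import Pool.Agent.Q61.CS.All
import Pool.Agent.Q61.CS.Expand

set_option autoImplicit false
set_option linter.unusedSimpArgs false

namespace Pool.Agent.Q61.CS

open MvPolynomial

variable {K : Type*} [Field K]

lemma deriv_aeval (F : MvPolynomial (Fin 4) K) (g : Fin 4 → Polynomial K) :
    Polynomial.derivative (aeval g F)
      = ∑ i, aeval g (pderiv i F) * Polynomial.derivative (g i) := by
  induction F using MvPolynomial.induction_on with
  | C a => simp
  | add p q hp hq =>
    simp only [map_add, hp, hq, add_mul, Finset.sum_add_distrib]
  | mul_X p n hp =>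
    have h : ∀ i, aeval g (pderiv i (p * X n)) * Polynomial.derivative (g i)
        = (aeval g (pderiv i p) * Polynomial.derivative (g i)) * g n
          + aeval g p * (if i = n then Polynomial.derivative (g n) else 0) := by
      intro i
      rw [pderiv_mul, map_add, map_mul, map_mul, aeval_X, pderiv_X]
      by_cases hi : i = n
      · subst hi
        rw [Pi.single_eq_same, map_one, if_pos rfl]
        ring
      · rw [Pi.single_eq_of_ne (Ne.symm hi), map_zero, if_neg hi]
        ring
    rw [Finset.sum_congr rfl fun i _ => h i, Finset.sum_add_distrib, ← Finset.sum_mul,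
      ← Finset.mul_sum, Finset.sum_ite_eq' Finset.univ n, if_pos (Finset.mem_univ n), ← hp,
      map_mul, aeval_X, Polynomial.derivative_mul]

lemma eval_aeval (F : MvPolynomial (Fin 4) K) (g : Fin 4 → Polynomial K) (t : K) :
    (aeval g F).eval t = eval (fun i => (g i).eval t) F := by
  have h := comp_aeval_apply (R := K) (f := g) (Polynomial.aeval t : Polynomial K →ₐ[K] K) F
  rw [Polynomial.coe_aeval_eq_eval] at h
  rw [h]
  rfl

/-- The gradient along a line, computed at the point. -/
lemma grad_line (F : MvPolynomial (Fin 4) K) (x v : Fin 4 → K) :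
    (Polynomial.derivative (aeval (fun i => Polynomial.C (v i) * Polynomial.X
      + Polynomial.C (x i)) F)).eval 0 = ∑ i, eval x (pderiv i F) * v i := by
  rw [deriv_aeval, Polynomial.eval_finsetSum]
  refine Finset.sum_congr rfl fun i _ => ?_
  rw [Polynomial.eval_mul, eval_aeval]
  simp

end Pool.Agent.Q61.CS
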