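import Pool.Agent.Q61.CS.Reduce

set_option autoImplicit false
set_option linter.unusedSimpArgs false

namespace Pool.Agent.Q61.CS

open MvPolynomial

lemma exists_perm : ∀ i j : Fin 4, i ≠ j → ∃ π : Equiv.Perm (Fin 4), π 0 = i ∧ π 3 = j := by
  decide

variable {K : Type*} [Field K]

/-- The four linear forms giving the change of coordinates. -/
noncomputable def chg (g x : Fin 4 → K) : Fin 4 → MvPolynomial (Fin 4) K :=
  ![C (g 0)⁻¹ * (X 0 - C (g 1) * X 1 - C (g 2) * X 2) + C (x 0) * X 3,
    X 1 + C (x 1) * X 3, X 2 + C (x 2) * X 3, C (x 3) * X 3]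

lemma chg_hom (g x : Fin 4 → K) (i : Fin 4) : (chg g x i).IsHomogeneous 1 := by
  have h : ∀ (a : K) (j : Fin 4), (C a * X j : MvPolynomial (Fin 4) K).IsHomogeneous 1 := by
    intro a j
    have := (isHomogeneous_C (Fin 4) a).mul (isHomogeneous_X K j)
    simpa using this
  fin_cases i
  · refine IsHomogeneous.add ?_ (h _ _)
    have h1 : (X 0 - C (g 1) * X 1 - C (g 2) * X 2 : MvPolynomial (Fin 4) K).IsHomogeneous 1 :=
      ((isHomogeneous_X K 0).sub (h _ _)).sub (h _ _)
    have := (isHomogeneous_C (Fin 4) (g 0)⁻¹).mul h1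
    simpa using this
  · exact (isHomogeneous_X K 1).add (h _ _)
  · exact (isHomogeneous_X K 2).add (h _ _)
  · exact h _ _

/-- The values of the forms. -/
noncomputable def chgv {A : Type*} [CommRing A] [Algebra K A] (g x : Fin 4 → K) (a : Fin 4 → A) :
    Fin 4 → A :=
  ![algebraMap K A (g 0)⁻¹ * (a 0 - algebraMap K A (g 1) * a 1 - algebraMap K A (g 2) * a 2)
      + algebraMap K A (x 0) * a 3,
    a 1 + algebraMap K A (x 1) * a 3, a 2 + algebraMap K A (x 2) * a 3, algebraMap K A (x 3) * a 3]

lemma aeval_chg {A : Type*} [CommRing A] [Algebra K A] (g x : Fin 4 → K) (a : Fin 4 → A)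
    (i : Fin 4) : aeval a (chg g x i) = chgv g x a i := by
  fin_cases i <;> simp [chg, chgv]

/-- Reduction to the normal form. -/
lemma reduce [Finite K] (F : MvPolynomial (Fin 4) K) (hF : F.IsHomogeneous 3) (x : Fin 4 → K)
    (hx : x ≠ 0) (hFx : eval x F = 0) (hsm : ∃ i, eval x (pderiv i F) ≠ 0) :
    ∃ y : Fin 4 → Polynomial K, aeval y F = 0 ∧ (∀ i, (y i).natDegree ≤ 12) ∧
      (∃ t c : AlgebraicClosure K, c ≠ 0 ∧
        ∀ i, Polynomial.aeval t (y i) = c * algebraMap K (AlgebraicClosure K) (x i)) ∧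
      ∀ ρ : Polynomial K, ¬ ∀ i, y i = ρ * Polynomial.C (x i) := by
  obtain ⟨i0, hi0⟩ := hsm
  have euler : ∑ i, x i * eval x (pderiv i F) = 0 := by
    have h := congrArg (eval x) hF.sum_X_mul_pderiv
    simpa [hFx] using h
  obtain ⟨j0, hj0, hij⟩ : ∃ j, x j ≠ 0 ∧ i0 ≠ j := by
    by_contra hcon
    push Not at hcon
    have h0 : ∀ j, j ≠ i0 → x j = 0 := by
      intro j hj
      by_contra h
      exact hj (hcon j h).symm
    rw [Finset.sum_eq_single i0 (fun b _ hb => by rw [h0 b hb, zero_mul]) (by simp)] at euler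
    have h1 := (mul_eq_zero.mp euler).resolve_right hi0
    apply hx
    funext j
    by_cases hj : j = i0
    · rw [hj, h1]; rfl
    · rw [h0 j hj]; rfl
  obtain ⟨π, hπ0, hπ3⟩ := exists_perm i0 j0 hij
  set g : Fin 4 → K := fun j => eval x (pderiv (π j) F) with hg
  set z : Fin 4 → K := fun j => x (π j) with hz
  have hg0 : g 0 ≠ 0 := by
    show eval x (pderiv (π 0) F) ≠ 0
    rw [hπ0]; exact hi0
  have hz3 : z 3 ≠ 0 := by
    show x (π 3) ≠ 0
    rw [hπ3]; exact hj0
  have euler' : z 0 * g 0 + z 1 * g 1 + z 2 * g 2 + z 3 * g 3 = 0 := by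
    rw [← Equiv.sum_comp π, Fin.sum_univ_four] at euler
    exact euler
  set G : MvPolynomial (Fin 4) K := aeval (fun i => chg g z (π.symm i)) F with hG
  have hGh : G.IsHomogeneous 3 := by
    have := hF.aeval (fun i => chg g z (π.symm i)) (fun i => chg_hom g z (π.symm i))
    rw [one_mul] at this
    exact this
  have hGa : ∀ a : Fin 4 → Polynomial K,
      aeval a G = aeval (fun i => chgv g z a (π.symm i)) F := by
    intro a
    rw [hG, comp_aeval_apply]
    congr 2
    funext i
    exact aeval_chg g z a (π.symm i)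
  obtain ⟨k, e0, e1, e2, e3, hk⟩ := expand_NF G hGh
  have hcz : ∀ b0 b1 b2 : K, (fun i => chgv g z ![Polynomial.C b0 * Polynomial.X,
      Polynomial.C b1 * Polynomial.X, Polynomial.C b2 * Polynomial.X, 1] (π.symm i))
      = fun i => Polynomial.C ((![(g 0)⁻¹ * (b0 - g 1 * b1 - g 2 * b2), b1, b2, 0] : Fin 4 → K)
        (π.symm i)) * Polynomial.X + Polynomial.C (x i) := by
    intro b0 b1 b2
    funext i
    obtain ⟨j, rfl⟩ := π.surjective i
    rw [Equiv.symm_apply_apply]
    fin_cases j
    · simp [chgv, hz]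
      ring
    · simp [chgv, hz]
    · simp [chgv, hz]
    · simp [chgv, hz]
  have hline : ∀ b0 b1 b2 : K, b0 = b0 * e0 + b1 * e1 + b2 * e2 := by
    intro b0 b1 b2
    have h1 := grad_line F x
      (fun i => (![(g 0)⁻¹ * (b0 - g 1 * b1 - g 2 * b2), b1, b2, 0] : Fin 4 → K) (π.symm i))
    rw [← hcz b0 b1 b2, ← hGa, hk] at h1
    rw [← Equiv.sum_comp π] at h1
    simp only [Equiv.symm_apply_apply, Fin.sum_univ_four] at h1
    have h2 : eval x (pderiv (π 0) F) = g 0 := rfl
    have h3 : eval x (pderiv (π 1) F) = g 1 := rfl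
    have h4 : eval x (pderiv (π 2) F) = g 2 := rfl
    rw [h2, h3, h4] at h1
    have hR : ∃ R : Polynomial K, NF (k.map Polynomial.C) (Polynomial.C b0 * Polynomial.X)
        (Polynomial.C b1 * Polynomial.X) (Polynomial.C b2 * Polynomial.X) 1
        + (Polynomial.C e0 - 1) * (Polynomial.C b0 * Polynomial.X) * 1 ^ 2
        + Polynomial.C e1 * (Polynomial.C b1 * Polynomial.X) * 1 ^ 2
        + Polynomial.C e2 * (Polynomial.C b2 * Polynomial.X) * 1 ^ 2 + Polynomial.C e3 * 1 ^ 3
        = Polynomial.C e3 + Polynomial.C (b0 * e0 + b1 * e1 + b2 * e2) * Polynomial.X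
          + Polynomial.X ^ 2 * R := by
      refine ⟨(Polynomial.C k.q1 * Polynomial.C b0 ^ 2 + Polynomial.C k.q2 * Polynomial.C b0
        * Polynomial.C b1 + Polynomial.C k.q3 * Polynomial.C b0 * Polynomial.C b2
        + Polynomial.C k.q4 * Polynomial.C b1 ^ 2 + Polynomial.C k.q5 * Polynomial.C b1
        * Polynomial.C b2 + Polynomial.C k.q6 * Polynomial.C b2 ^ 2)
        + Polynomial.X * (Polynomial.C k.c1 * Polynomial.C b0 ^ 3
        + Polynomial.C k.c2 * Polynomial.C b0 ^ 2 * Polynomial.C b1
        + Polynomial.C k.c3 * Polynomial.C b0 ^ 2 * Polynomial.C b2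
        + Polynomial.C k.c4 * Polynomial.C b0 * Polynomial.C b1 ^ 2
        + Polynomial.C k.c5 * Polynomial.C b0 * Polynomial.C b1 * Polynomial.C b2
        + Polynomial.C k.c6 * Polynomial.C b0 * Polynomial.C b2 ^ 2
        + Polynomial.C k.c7 * Polynomial.C b1 ^ 3
        + Polynomial.C k.c8 * Polynomial.C b1 ^ 2 * Polynomial.C b2
        + Polynomial.C k.c9 * Polynomial.C b1 * Polynomial.C b2 ^ 2
        + Polynomial.C k.c10 * Polynomial.C b2 ^ 3), ?_⟩
      simp only [NF, Co.map, map_add, map_mul]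
      ring
    obtain ⟨R, hR⟩ := hR
    simp only [Matrix.cons_val_zero, Matrix.cons_val_one, Matrix.cons_val_two,
      Matrix.cons_val_three, Matrix.head_cons, Matrix.tail_cons, Matrix.cons_val] at h1
    rw [hR] at h1
    simp only [Polynomial.derivative_add, Polynomial.derivative_C, Polynomial.derivative_mul,
      Polynomial.derivative_X, Polynomial.derivative_X_pow, Polynomial.eval_add,
      Polynomial.eval_mul, Polynomial.eval_C, Polynomial.eval_X, Polynomial.eval_pow,
      Polynomial.eval_zero, Polynomial.eval_one, mul_zero, zero_mul, mul_one, zero_add,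
      add_zero] at h1
    have h5 : g 0 * ((g 0)⁻¹ * (b0 - g 1 * b1 - g 2 * b2)) = b0 - g 1 * b1 - g 2 * b2 := by
      rw [← mul_assoc, mul_inv_cancel₀ hg0, one_mul]
    rw [h5] at h1
    simp at h1
    linear_combination -h1
  have he0 : e0 = 1 := by linear_combination -(hline 1 0 0)
  have he1 : e1 = 0 := by linear_combination -(hline 0 1 0)
  have he2 : e2 = 0 := by linear_combination -(hline 0 0 1)
  have he3 : e3 = 0 := by
    have h1 := hk ![0, 0, 0, 1]
    rw [hGa] at h1
    have h2 : (fun i => chgv g z ![(0 : Polynomial K), 0, 0, 1] (π.symm i))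
        = fun i => algebraMap K (Polynomial K) (x i) := by
      funext i
      obtain ⟨j, rfl⟩ := π.surjective i
      rw [Equiv.symm_apply_apply]
      fin_cases j <;> simp [chgv, hz]
    have h3 : aeval (fun i => algebraMap K (Polynomial K) (x i)) F = 0 := by
      have h4 := aeval_algebraMap_apply (Polynomial K) x F
      have h5 : aeval x F = 0 := hFx
      rw [h5, map_zero] at h4
      exact h4
    rw [h2, h3] at h1
    simp [NF] at h1
    exact Polynomial.C_eq_zero.mp h1.symm
  subst he0 he1 he2 he3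
  obtain ⟨a, b, c, d, hN, ⟨t, ha, hb, hc, hd⟩, hnz, da, db, dc, ddd⟩ := RC_all k
  have dC : ∀ (u : K) (p : Polynomial K), p.natDegree ≤ 12 →
      (algebraMap K (Polynomial K) u * p).natDegree ≤ 12 := fun u p hp =>
    (Polynomial.natDegree_C_mul_le u p).trans hp
  refine ⟨fun i => chgv g z ![a, b, c, d] (π.symm i), ?_, ?_, ⟨t, Polynomial.aeval t d, hd, ?_⟩,
    ?_⟩
  · rw [← hGa, hk]
    simp only [Matrix.cons_val_zero, Matrix.cons_val_one, Matrix.cons_val_two,
      Matrix.cons_val_three, Matrix.head_cons, Matrix.tail_cons, Matrix.cons_val, hN]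
    simp
  · intro i
    obtain ⟨j, rfl⟩ := π.surjective i
    simp only [Equiv.symm_apply_apply]
    fin_cases j
    · exact Polynomial.natDegree_add_le_of_degree_le (dC _ _
        ((Polynomial.natDegree_sub_le_of_le (Polynomial.natDegree_sub_le_of_le da (dC _ _ db))
          (dC _ _ dc)).trans (by simp))) (dC _ _ ddd)
    · exact Polynomial.natDegree_add_le_of_degree_le db (dC _ _ ddd)
    · exact Polynomial.natDegree_add_le_of_degree_le dc (dC _ _ ddd)
    · exact dC _ _ ddd
  · intro i
    obtain ⟨j, rfl⟩ := π.surjective i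
    simp only [Equiv.symm_apply_apply]
    fin_cases j
    · show Polynomial.aeval t (Polynomial.C (g 0)⁻¹ * (a - Polynomial.C (g 1) * b
        - Polynomial.C (g 2) * c) + Polynomial.C (z 0) * d) = Polynomial.aeval t d
          * algebraMap K (AlgebraicClosure K) (z 0)
      simp only [map_add, map_mul, map_sub, ha, hb, hc, Polynomial.aeval_C]
      ring
    · show Polynomial.aeval t (b + Polynomial.C (z 1) * d) = Polynomial.aeval t d
          * algebraMap K (AlgebraicClosure K) (z 1)
      simp only [map_add, map_mul, hb, Polynomial.aeval_C]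
      ring
    · show Polynomial.aeval t (c + Polynomial.C (z 2) * d) = Polynomial.aeval t d
          * algebraMap K (AlgebraicClosure K) (z 2)
      simp only [map_add, map_mul, hc, Polynomial.aeval_C]
      ring
    · show Polynomial.aeval t (Polynomial.C (z 3) * d) = Polynomial.aeval t d
          * algebraMap K (AlgebraicClosure K) (z 3)
      simp only [map_mul, Polynomial.aeval_C]
      ring
  · intro ρ hρ
    have h3 : Polynomial.C (z 3) * d = ρ * Polynomial.C (z 3) := by
      have := hρ (π 3)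
      simpa [chgv] using this
    have h1 : b + Polynomial.C (z 1) * d = ρ * Polynomial.C (z 1) := by
      have := hρ (π 1)
      simpa [chgv] using this
    have h2 : c + Polynomial.C (z 2) * d = ρ * Polynomial.C (z 2) := by
      have := hρ (π 2)
      simpa [chgv] using this
    have h0 : Polynomial.C (g 0)⁻¹ * (a - Polynomial.C (g 1) * b - Polynomial.C (g 2) * c)
        + Polynomial.C (z 0) * d = ρ * Polynomial.C (z 0) := by
      have := hρ (π 0)
      simpa [chgv] using this
    have hz3' : (Polynomial.C (z 3) : Polynomial K) ≠ 0 := by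
      rw [Ne, Polynomial.C_eq_zero]; exact hz3
    have hd' : d = ρ := by
      apply mul_left_cancel₀ hz3'
      rw [h3, mul_comm]
    have hb' : b = 0 := by
      rw [hd'] at h1
      linear_combination h1
    have hc' : c = 0 := by
      rw [hd'] at h2
      linear_combination h2
    have ha' : Polynomial.C (g 0)⁻¹ * a = 0 := by
      rw [hd', hb', hc'] at h0
      linear_combination h0
    have ha'' : a = 0 := by
      refine (mul_eq_zero.mp ha').resolve_left ?_
      rw [Polynomial.C_eq_zero]
      exact inv_ne_zero hg0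
    exact hnz ⟨ha'', hb', hc'⟩

end Pool.Agent.Q61.CS
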