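import Pool.Agent.Q61.CS.Core

set_option autoImplicit false

namespace Pool.Agent.Q61.CS

open Polynomial

variable {K : Type*} [Field K]

lemma nd_C_mul {m : ℕ} (c : K) {x : K[X]} (hx : x.natDegree ≤ m) : (C c * x).natDegree ≤ m :=
  (natDegree_C_mul_le c x).trans hx

lemma nd_two_mul {m : ℕ} {x : K[X]} (hx : x.natDegree ≤ m) : (2 * x).natDegree ≤ m := by
  have : (2 : K[X]) = C 2 := (map_ofNat C 2).symm
  rw [this]
  exact nd_C_mul 2 hx

lemma nd_three_mul {m : ℕ} {x : K[X]} (hx : x.natDegree ≤ m) : (3 * x).natDegree ≤ m := by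
  have : (3 : K[X]) = C 3 := (map_ofNat C 3).symm
  rw [this]
  exact nd_C_mul 3 hx

lemma nd_mul {m n : ℕ} {x y : K[X]} (hx : x.natDegree ≤ m) (hy : y.natDegree ≤ n) :
    (x * y).natDegree ≤ m + n := natDegree_mul_le_of_le hx hy

lemma nd_sq {m : ℕ} {x : K[X]} (hx : x.natDegree ≤ m) : (x ^ 2).natDegree ≤ m + m := by
  rw [sq]
  exact nd_mul hx hx

lemma nd_add {m : ℕ} {x y : K[X]} (hx : x.natDegree ≤ m) (hy : y.natDegree ≤ m) :
    (x + y).natDegree ≤ m := natDegree_add_le_of_degree_le hx hy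

lemma nd_sub {m : ℕ} {x y : K[X]} (hx : x.natDegree ≤ m) (hy : y.natDegree ≤ m) :
    (x - y).natDegree ≤ m := natDegree_sub_le_of_le hx hy |>.trans (by simp)

lemma nd_PF (k : Co K) {m n : ℕ} {x y z w x' y' z' w' : K[X]} (hx : x.natDegree ≤ m)
    (hy : y.natDegree ≤ m) (hz : z.natDegree ≤ m) (hw : w.natDegree ≤ m)
    (hx' : x'.natDegree ≤ n) (hy' : y'.natDegree ≤ n) (hz' : z'.natDegree ≤ n)
    (hw' : w'.natDegree ≤ n) :
    (PF (k.map C) x y z w x' y' z' w').natDegree ≤ m + m + n := by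
  unfold PF
  simp only [Co.map, mul_assoc]
  repeat' with_reducible first
    | exact hx
    | exact hy
    | exact hz
    | exact hw
    | exact hx'
    | exact hy'
    | exact hz'
    | exact hw'
    | apply nd_add
    | apply nd_C_mul
    | apply nd_two_mul
    | apply nd_three_mul
    | apply nd_sq
    | apply nd_mul

/-- Values of the polar form at two points of a vertical line. -/
lemma PF_vert {A : Type*} [CommRing A] (k : Co A) (v1 v2 w w' : A)
    (h1 : w + w' = -(k.q1 + k.q2 * v1 + k.q3 * v2 + k.q4 * v1 ^ 2 + k.q5 * v1 * v2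
      + k.q6 * v2 ^ 2))
    (h2 : w * w' = k.c1 + k.c2 * v1 + k.c3 * v2 + k.c4 * v1 ^ 2 + k.c5 * v1 * v2 + k.c6 * v2 ^ 2
      + k.c7 * v1 ^ 3 + k.c8 * v1 ^ 2 * v2 + k.c9 * v1 * v2 ^ 2 + k.c10 * v2 ^ 3) :
    PF k 1 v1 v2 w 1 v1 v2 w' = -(w - w') ^ 2 := by
  unfold PF
  linear_combination (2 * w + w') * h1 - 3 * h2

end Pool.Agent.Q61.CS
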